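import Mathlib

/-!
# Uniform bounds for the minimal solutions of linear systems with bounded coefficients
-/

set_option autoImplicit false

namespace Pool.Agent.X297.UB

/-- A consequence of the lemma of Dickson. -/
theorem exists_bound {ι : Type*} [Fintype ι] (M : Set (ι → ℕ)) :
    ∃ n : ℕ, ∀ e ∈ M, e ≠ 0 → ∃ m ∈ M, m ≠ 0 ∧ m ≤ e ∧ ∑ i, m i ≤ n := by
  classical
  set A : Set (ι → ℕ) := {m | Minimal (fun e => e ∈ M ∧ e ≠ 0) m} with hA
  have hanti : IsAntichain (· ≤ ·) A := by
    intro a ha b hb hab h
    exact hab (le_antisymm h (hb.2 ha.1 h))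
  have hfin : A.Finite := WellQuasiOrderedLE.finite_of_isAntichain hanti
  obtain ⟨n, hn⟩ := (hfin.image fun m : ι → ℕ => ∑ i, m i).bddAbove
  refine ⟨n, fun e he he0 => ?_⟩
  obtain ⟨m, hme, hm⟩ := exists_minimal_le_of_wellFoundedLT (fun e => e ∈ M ∧ e ≠ 0) e ⟨he, he0⟩
  exact ⟨m, hm.1.1, hm.1.2, hme, hn ⟨m, hm, rfl⟩⟩

/-- The solutions of the linear equations with the coefficients `2 r - D w`, with the additional
condition on the parity. -/
def sols {b B C : ℕ} (D : ℕ) (R : Set (Fin b → Fin B)) (w : Fin b → Fin C) : Set (Fin b → ℕ) :=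
  {e | 2 ∣ ∑ i, e i * (w i : ℕ) ∧
    ∀ r ∈ R, 2 * ∑ i, e i * (r i : ℕ) = D * ∑ i, e i * (w i : ℕ)}

lemma sub_mem_sols {b B C D : ℕ} {R : Set (Fin b → Fin B)} {w : Fin b → Fin C}
    {e m : Fin b → ℕ} (he : e ∈ sols D R w) (hm : m ∈ sols D R w) (hme : m ≤ e) :
    e - m ∈ sols D R w := by
  have h0 : e = m + (e - m) := (add_tsub_cancel_of_le hme).symm
  have h1 : ∀ f : Fin b → ℕ, ∑ i, e i * f i = ∑ i, m i * f i + ∑ i, (e - m) i * f i := by
    intro f
    rw [← Finset.sum_add_distrib]
    refine Finset.sum_congr rfl fun i _ => ?_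
    rw [← add_mul]
    congr 1
    exact congrFun h0 i
  refine ⟨?_, fun r hr => ?_⟩
  · have h2 := he.1
    rw [h1 fun i => (w i : ℕ)] at h2
    exact (Nat.dvd_add_right hm.1).1 h2
  · have h2 := he.2 r hr
    rw [h1 fun i => (w i : ℕ), h1 fun i => (r i : ℕ)] at h2
    have h3 := hm.2 r hr
    rw [mul_add, mul_add] at h2
    omega

/-- The bound is uniform. -/
theorem exists_uniform (b B C D : ℕ) : ∃ n : ℕ, ∀ (R : Set (Fin b → Fin B)) (w : Fin b → Fin C),
    ∀ e ∈ sols D R w, e ≠ 0 → ∃ m ∈ sols D R w, m ≠ 0 ∧ m ≤ e ∧ ∑ i, m i ≤ n := by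
  classical
  choose n hn using fun c : Set (Fin b → Fin B) × (Fin b → Fin C) =>
    exists_bound (sols D c.1 c.2)
  have : Finite (Set (Fin b → Fin B)) := inferInstance
  have : Fintype (Set (Fin b → Fin B) × (Fin b → Fin C)) := Fintype.ofFinite _
  refine ⟨Finset.univ.sup n, fun R w e he he0 => ?_⟩
  obtain ⟨m, hm, hm0, hme, h⟩ := hn (R, w) e he he0
  exact ⟨m, hm, hm0, hme, h.trans (Finset.le_sup (f := n) (Finset.mem_univ (R, w)))⟩

/-- A list of labels whose numbers belong to a set of solutions is a permutation of the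
concatenation of short nonempty lists with the same property. -/
theorem exists_blocks {b : ℕ} {α : Type*} (lab : α → Fin b) (M : Set (Fin b → ℕ)) (n : ℕ)
    (hsub : ∀ e ∈ M, ∀ m ∈ M, m ≤ e → e - m ∈ M)
    (hn : ∀ e ∈ M, e ≠ 0 → ∃ m ∈ M, m ≠ 0 ∧ m ≤ e ∧ ∑ i, m i ≤ n) :
    ∀ (N : ℕ) (l : List α), l.length ≤ N → (fun i => (l.map lab).count i) ∈ M →
      ∃ L : List (List α), l.Perm L.flatten ∧ ∀ l' ∈ L, l' ≠ [] ∧ l'.length ≤ n ∧
        (fun i => (l'.map lab).count i) ∈ M := by
  classical
  have key : ∀ (l : List α) (m : Fin b → ℕ), (∀ i, m i ≤ (l.map lab).count i) →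
      ∃ l₁ l₂ : List α, l.Perm (l₁ ++ l₂) ∧ ∀ i, (l₁.map lab).count i = m i := by
    intro l
    induction l with
    | nil =>
      intro m hm
      refine ⟨[], [], List.Perm.refl _, fun i => ?_⟩
      have := hm i
      simp only [List.map_nil, List.count_nil] at this ⊢
      omega
    | cons a l ih =>
      intro m hm
      by_cases h : m (lab a) = 0
      · obtain ⟨l₁, l₂, h1, h2⟩ := ih m (by
          intro i
          have := hm i
          rw [List.map_cons, List.count_cons] at this
          by_cases hi : lab a = i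
          · subst hi
            omega
          · simpa [hi] using this)
        refine ⟨l₁, a :: l₂, ?_, h2⟩
        exact (h1.cons a).trans List.perm_middle.symm
      · obtain ⟨l₁, l₂, h1, h2⟩ := ih (Function.update m (lab a) (m (lab a) - 1)) (by
          intro i
          have := hm i
          rw [List.map_cons, List.count_cons] at this
          by_cases hi : lab a = i
          · subst hi
            rw [Function.update_self]
            simp only [beq_self_eq_true, if_true] at this
            omega
          · rw [Function.update_of_ne (Ne.symm hi)]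
            simpa [hi] using this)
        refine ⟨a :: l₁, l₂, h1.cons a, fun i => ?_⟩
        rw [List.map_cons, List.count_cons, h2]
        by_cases hi : lab a = i
        · subst hi
          rw [Function.update_self]
          simp only [beq_self_eq_true, if_true]
          omega
        · rw [Function.update_of_ne (Ne.symm hi)]
          simp [hi]
  have hlen : ∀ l : List α, ∑ i, (l.map lab).count i = l.length := by
    intro l
    induction l with
    | nil => simp
    | cons a l ih =>
      simp only [List.map_cons, List.count_cons, Finset.sum_add_distrib, ih, List.length_cons,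
        beq_iff_eq, Finset.sum_ite_eq, Finset.mem_univ, if_true]
  intro N
  induction N with
  | zero =>
    intro l hl _
    have : l = [] := List.length_eq_zero_iff.1 (by omega)
    subst this
    exact ⟨[], List.Perm.refl _, fun l' h => absurd h List.not_mem_nil⟩
  | succ N ih =>
    intro l hl hM
    by_cases h0 : l = []
    · subst h0
      exact ⟨[], List.Perm.refl _, fun l' h => absurd h List.not_mem_nil⟩
    have hne : (fun i => (l.map lab).count i) ≠ 0 := by
      intro h
      apply h0
      apply List.length_eq_zero_iff.1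
      rw [← hlen l]
      exact Finset.sum_eq_zero fun i _ => congrFun h i
    obtain ⟨m, hm, hm0, hme, hmn⟩ := hn _ hM hne
    obtain ⟨l₁, l₂, h1, h2⟩ := key l m hme
    have h3 : (fun i => (l₁.map lab).count i) = m := funext h2
    have h4 : l₁.length = ∑ i, m i := by
      rw [← hlen l₁, h3]
    have h5 : l₁ ≠ [] := by
      rintro rfl
      apply hm0
      rw [← h3]
      funext i
      simp
    have h6 : l₂.length ≤ N := by
      have := h1.length_eq
      rw [List.length_append] at this
      have := List.length_pos_iff.2 h5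
      omega
    have h7 : (fun i => (l₂.map lab).count i) ∈ M := by
      have h8 := hsub _ hM m hm hme
      convert h8 using 1
      funext i
      have h9 := (h1.map lab).count_eq i
      rw [List.map_append, List.count_append, h2] at h9
      simp only [Pi.sub_apply]
      omega
    obtain ⟨L, hL, hL2⟩ := ih l₂ h6 h7
    refine ⟨l₁ :: L, ?_, ?_⟩
    · rw [List.flatten_cons]
      exact h1.trans (hL.append_left l₁)
    · intro l' hl'
      rcases List.mem_cons.1 hl' with rfl | hl'
      · exact ⟨h5, by omega, by rw [h3]; exact hm⟩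
      · exact hL2 l' hl'

end Pool.Agent.X297.UB
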