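import Mathlib
import Pool.Agent.W534.PoleDefs
import Pool.Agent.Y129.Defs

/-!
# Tate classes on powers are generated in bounded degree: definitions
-/

open CategoryTheory AlgebraicGeometry Polynomial

universe u v

namespace Pool.Agent.X297.UB

open Pool.Agent.H914 Pool.Agent.H914.VarClass Pool.Agent.H914.VarClass.Obj
  Pool.Agent.H914.WeilCohomology Pool.Agent.W534 Pool.Agent.Y129

/-- The number of the roots of `f` (with multiplicities) in the algebraic closure of the field of
`p`-adic numbers which have the slope `r` relative to `q`, that is, the absolute value `q ^ (-r)`. -/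
noncomputable def slopeMult (p : ℕ) [Fact p.Prime] (f : ℤ[X]) (q r : ℝ) : ℕ :=
  open Classical in Multiset.countP (fun x : PadicAlgCl p => ‖x‖ = q ^ (-r))
    (f.aroots (PadicAlgCl p))

/-- The bound `2 b ^ 2 (2 b b! (2 d + 1)) ^ b` for the number of factors. -/
def powerBound (b d : ℕ) : ℕ :=
  2 * b ^ 2 * (2 * b * Nat.factorial b * (2 * d + 1)) ^ b

variable {k : Type u} [Field k] {𝒱 : VarClass k} {ops : CycleOps 𝒱}

/-- The characteristic polynomials of the Frobenius endomorphism `F` of the model of `X` over the
field with `q = card Φ X 1` elements, on the groups `H^i(X)`, have integral coefficients, and the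
vertices of their Newton polygons relative to `q` have integral coordinates: for every real number
`r` the product of `r` and the number of the eigenvalues of slope `r` is an integer. -/
def IntegralNewton {W : WeilCohomology.{u, v} ops} {p : ℕ} [Fact p.Prime] (Φ : FrobSystem W p)
    (σ : W.K →+* ℂ) (X : 𝒱.Obj) : Prop :=
  ∀ i, ∃ f : ℤ[X], frobPoly Φ σ X 1 i = f.map (Int.castRingHom ℂ) ∧
    ∀ r : ℝ, ∃ c : ℤ, r * slopeMult p f (card Φ X 1) r = c

/-- The pull-backs to the power `X ^ (n + 1)`, by arbitrary morphisms, of the generalised Tate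
classes on the powers `X, X ^ 2, …, X ^ N`. -/
def pulledBack {W : WeilCohomology.{u, v} ops} {p : ℕ} (Φ : FrobSystem W p) (X : 𝒱.Obj)
    (N n : ℕ) : Set (W.H (pw X n)) :=
  {c | ∃ m < N, ∃ (g : pw X n ⟶ pw X m) (s j : ℕ), 0 < s ∧
    ∃ y ∈ genTate Φ (pw X m) s j, W.map g y = c}

end Pool.Agent.X297.UB
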