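import Mathlib
import Pool.Agent.H485R3.Kron
import Pool.Agent.X297.UB.Dickson

/-!
# Multiplicative relations between Weil numbers and linear equations for the slopes
-/

set_option autoImplicit false

open Polynomial

namespace Pool.Agent.X297.UB

/-- The slope of an element, `v p = 1`. -/
noncomputable def slp (p : ℕ) [Fact p.Prime] (x : PadicAlgCl p) : ℝ := - Real.logb p ‖x‖

section Slope

variable {p : ℕ} [hp : Fact p.Prime]

lemma one_lt_p : (1 : ℝ) < p := by exact_mod_cast hp.out.one_lt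

lemma slp_mul {x y : PadicAlgCl p} (hx : x ≠ 0) (hy : y ≠ 0) :
    slp p (x * y) = slp p x + slp p y := by
  rw [slp, slp, slp, norm_mul, Real.logb_mul (norm_ne_zero_iff.2 hx) (norm_ne_zero_iff.2 hy)]
  ring

lemma slp_one : slp p 1 = 0 := by
  rw [slp, norm_one, Real.logb_one, neg_zero]

lemma slp_pow (x : PadicAlgCl p) (n : ℕ) : slp p (x ^ n) = n * slp p x := by
  rw [slp, slp, norm_pow, Real.logb_pow]
  ring

lemma slp_prod {ι : Type*} (s : Finset ι) (x : ι → PadicAlgCl p) (hx : ∀ i ∈ s, x i ≠ 0) :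
    slp p (∏ i ∈ s, x i) = ∑ i ∈ s, slp p (x i) := by
  classical
  induction s using Finset.induction_on with
  | empty => rw [Finset.prod_empty, Finset.sum_empty, slp_one]
  | insert a s ha ih =>
    rw [Finset.prod_insert ha, Finset.sum_insert ha, slp_mul (hx a (Finset.mem_insert_self _ _))
      (Finset.prod_ne_zero_iff.2 fun i hi => hx i (Finset.mem_insert_of_mem hi)),
      ih fun i hi => hx i (Finset.mem_insert_of_mem hi)]

lemma norm_p : ‖(p : PadicAlgCl p)‖ = (p : ℝ)⁻¹ := by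
  have h1 : (p : PadicAlgCl p) = algebraMap ℚ_[p] (PadicAlgCl p) (p : ℚ_[p]) := by
    rw [map_natCast]
  rw [h1, PadicAlgCl.norm_extends, Padic.norm_p]

lemma slp_p : slp p (p : PadicAlgCl p) = 1 := by
  rw [slp, norm_p, Real.logb_inv, Real.logb_self_eq_one one_lt_p, neg_neg]

lemma norm_of_slp {x : PadicAlgCl p} (hx : x ≠ 0) : ‖x‖ = (p : ℝ) ^ (- slp p x) := by
  rw [slp, neg_neg, Real.rpow_logb (by have := one_lt_p (p := p); linarith) one_lt_p.ne'
    (norm_pos_iff.2 hx)]

lemma slp_nonneg_iff {x : PadicAlgCl p} (hx : x ≠ 0) : 0 ≤ slp p x ↔ ‖x‖ ≤ 1 := by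
  rw [slp, neg_nonneg, Real.logb_nonpos_iff one_lt_p (norm_pos_iff.2 hx)]

end Slope

/-- An integral element has norm at most one. -/
lemma norm_le_one_of_integral (l : ℕ) [Fact l.Prime] {x : PadicAlgCl l} {f : ℤ[X]}
    (hf : f.Monic) (hx : aeval x f = 0) : ‖x‖ ≤ 1 := by
  by_contra h
  push Not at h
  have h1 : f.natDegree ≠ 0 := by
    intro h0
    have : f = 1 := hf.natDegree_eq_zero.1 h0
    rw [this, map_one] at hx
    exact one_ne_zero hx
  have h2 : x ^ f.natDegree = - ∑ i ∈ Finset.range f.natDegree,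
      (f.coeff i : PadicAlgCl l) * x ^ i := by
    have h3 : aeval x f = ∑ i ∈ Finset.range (f.natDegree + 1),
        (f.coeff i : PadicAlgCl l) * x ^ i := by
      rw [aeval_eq_sum_range]
      refine Finset.sum_congr rfl fun i _ => ?_
      rw [zsmul_eq_mul]
    rw [h3, Finset.sum_range_succ, hf.coeff_natDegree, Int.cast_one, one_mul] at hx
    exact eq_neg_of_add_eq_zero_right hx
  have h3 : ‖∑ i ∈ Finset.range f.natDegree, (f.coeff i : PadicAlgCl l) * x ^ i‖ ≤
      ‖x‖ ^ (f.natDegree - 1) := by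
    apply IsUltrametricDist.norm_sum_le_of_forall_le_of_nonneg (pow_nonneg (norm_nonneg _) _)
    intro i hi
    rw [norm_mul, norm_pow]
    have h4 : ‖(f.coeff i : PadicAlgCl l)‖ ≤ 1 := by
      have h5 : (f.coeff i : PadicAlgCl l) =
          algebraMap ℚ_[l] (PadicAlgCl l) (f.coeff i : ℚ_[l]) := by
        rw [map_intCast]
      rw [h5, PadicAlgCl.norm_extends]
      exact Padic.norm_int_le_one _
    have h5 : ‖x‖ ^ i ≤ ‖x‖ ^ (f.natDegree - 1) :=
      pow_le_pow_right₀ h.le (by rw [Finset.mem_range] at hi; omega)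
    calc _ ≤ 1 * ‖x‖ ^ (f.natDegree - 1) :=
          mul_le_mul h4 h5 (pow_nonneg (norm_nonneg _) _) zero_le_one
      _ = _ := one_mul _
  have h4 : ‖x‖ ^ f.natDegree ≤ ‖x‖ ^ (f.natDegree - 1) := by
    rw [← norm_pow, h2, norm_neg]
    exact h3
  have h5 : ‖x‖ ^ (f.natDegree - 1) < ‖x‖ ^ f.natDegree :=
    pow_lt_pow_right₀ h (by omega)
  exact absurd h4 (not_le.2 h5)

/-- Kronecker's theorem in an algebraic extension of the field of rational numbers. -/
lemma kronecker {L : Type*} [Field L] [Algebra ℚ L] [Algebra.IsAlgebraic ℚ L] {x : L}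
    (hx : IsIntegral ℤ x) (h : ∀ φ : L →+* ℂ, ‖φ x‖ = 1) : ∃ n : ℕ, 0 < n ∧ x ^ n = 1 := by
  have hcL : CharZero L := algebraRat.charZero L
  set K := IntermediateField.adjoin ℚ {x} with hK
  have hfin : FiniteDimensional ℚ K :=
    IntermediateField.adjoin.finiteDimensional (Algebra.IsIntegral.isIntegral x)
  let y : K := ⟨x, IntermediateField.subset_adjoin ℚ {x} rfl⟩
  have hy : IsIntegral ℤ y := by
    obtain ⟨f, hf, hfx⟩ := hx
    refine ⟨f, hf, ?_⟩
    apply (algebraMap K L).injective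
    rw [map_zero, ← hfx, Polynomial.hom_eval₂]
    congr 1
  have hcK : CharZero K := algebraRat.charZero K
  have hnf : NumberField K :=
    { to_charZero := hcK
      to_finiteDimensional := by
        convert hfin
        exact Subsingleton.elim _ _ }
  obtain ⟨n, hn, h1⟩ := NumberField.Embeddings.pow_eq_one_of_norm_eq_one K ℂ hy (by
    intro φ
    let _ := φ.toAlgebra
    let ψ : L →ₐ[K] ℂ := IsAlgClosed.lift
    have h2 := h ψ.toRingHom
    have h3 : ψ.toRingHom x = φ y := ψ.commutes y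
    rw [h3] at h2
    exact h2)
  exact ⟨n, hn, congrArg (algebraMap K L) h1⟩

section Rel

variable (p : ℕ) [hp : Fact p.Prime] {ι : Type*} (a : ℕ) {L : Type*} [Field L] [Algebra ℚ L]

/-- A family of Weil numbers of weights `w i` relative to `p ^ a`. -/
structure Weil (α : ι → L) (w : ι → ℕ) : Prop where
  root : ∀ i, ∃ f : ℤ[X], f.Monic ∧ aeval (α i) f = 0 ∧
    ∀ z : ℂ, aeval z f = 0 → ‖z‖ ^ 2 = ((p : ℝ) ^ a) ^ w i

variable {p a} {α : ι → L} {w : ι → ℕ}

lemma aeval_hom {A B : Type*} [CommRing A] [CommRing B] (φ : A →+* B) {x : A} {f : ℤ[X]}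
    (h : aeval x f = 0) : aeval (φ x) f = 0 := by
  have := congrArg φ h
  rw [map_zero, aeval_def, Polynomial.hom_eval₂] at this
  rw [aeval_def]
  convert this using 2
  exact RingHom.ext_int _ _

omit hp [Algebra ℚ L] in
lemma Weil.abs (h : Weil p a α w) (φ : L →+* ℂ) (i : ι) :
    ‖φ (α i)‖ ^ 2 = ((p : ℝ) ^ a) ^ w i := by
  obtain ⟨f, _, h2, h3⟩ := h.root i
  exact h3 _ (aeval_hom φ h2)

lemma Weil.ne_zero [Algebra.IsAlgebraic ℚ L] (h : Weil p a α w) (i : ι) : α i ≠ 0 := by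
  intro h0
  have φ : L →+* ℂ := (IsAlgClosed.lift : L →ₐ[ℚ] ℂ).toRingHom
  have h1 := h.abs φ i
  rw [h0, map_zero, norm_zero] at h1
  have h2 : (0 : ℝ) < ((p : ℝ) ^ a) ^ w i := by
    have : (0 : ℝ) < p := by exact_mod_cast hp.out.pos
    positivity
  rw [← h1] at h2
  norm_num at h2

omit hp [Algebra ℚ L] in
lemma Weil.norm_le (h : Weil p a α w) (l : ℕ) [Fact l.Prime]
    (τ : L →+* PadicAlgCl l) (i : ι) : ‖τ (α i)‖ ≤ 1 := by
  obtain ⟨f, h1, h2, -⟩ := h.root i
  exact norm_le_one_of_integral l h1 (aeval_hom τ h2)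

/-- The slopes lie between `0` and `a w`. -/
lemma Weil.slp_le [Algebra.IsAlgebraic ℚ L] (h : Weil p a α w) (τ : L →+* PadicAlgCl p) (i : ι) :
    0 ≤ slp p (τ (α i)) ∧ slp p (τ (α i)) ≤ a * w i := by
  have h0 := h.ne_zero i
  have h0' : τ (α i) ≠ 0 := (map_ne_zero τ).2 h0
  refine ⟨(slp_nonneg_iff h0').2 (h.norm_le p τ i), ?_⟩
  obtain ⟨f, h1, h2, h3⟩ := h.root i
  obtain φ : L →+* ℂ :=
    (IsAlgClosed.lift : L →ₐ[ℚ] ℂ).toRingHom
  set β : L := (p : L) ^ (a * w i) / α i with hβ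
  have h4 : φ β = (starRingEnd ℂ) (φ (α i)) := by
    have h5 := h.abs φ i
    rw [hβ, map_div₀, map_pow, map_natCast, div_eq_iff ((map_ne_zero φ).2 h0),
      mul_comm ((starRingEnd ℂ) _), Complex.mul_conj, Complex.normSq_eq_norm_sq, h5]
    push_cast
    rw [pow_mul]
  have h5 : aeval β f = 0 := by
    apply φ.injective
    have h6 : aeval (φ β) f = 0 := by
      rw [h4]
      exact aeval_hom (starRingEnd ℂ) (aeval_hom φ h2)
    rw [map_zero]
    have h7 : φ (aeval β f) = aeval (φ β) f := by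
      rw [aeval_def, Polynomial.hom_eval₂, aeval_def]
      congr 1
      exact RingHom.ext_int _ _
    rw [h7, h6]
  have h6 := norm_le_one_of_integral p h1 (aeval_hom τ h5)
  have hp0 : (p : PadicAlgCl p) ≠ 0 := Nat.cast_ne_zero.2 hp.out.ne_zero
  have h7 : τ β * τ (α i) = (p : PadicAlgCl p) ^ (a * w i) := by
    rw [← map_mul, hβ, div_mul_cancel₀ _ h0, map_pow, map_natCast]
  have h8 : τ β ≠ 0 := by
    intro h9
    rw [h9, zero_mul] at h7
    exact pow_ne_zero _ hp0 h7.symm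
  have h9 := congrArg (slp p) h7
  rw [slp_mul h8 h0', slp_pow, slp_p, mul_one] at h9
  have h10 := (slp_nonneg_iff h8).2 h6
  push_cast at h9
  linarith

variable [Fintype ι]

/-- **Multiplicative relations and slopes.** -/
theorem Weil.rel_iff [Normal ℚ L] (h : Weil p a α w) (e : ι → ℕ) (j : ℕ) (hj : ∑ i, e i * w i = 2 * j) :
    (∃ s, 0 < s ∧ (∏ i, α i ^ e i) ^ s = (p : L) ^ (a * s * j)) ↔
      ∀ τ : L →ₐ[ℚ] PadicAlgCl p, ∑ i, (e i : ℝ) * slp p (τ (α i)) = a * j := by
  have hc : CharZero L := algebraRat.charZero L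
  have hp0 : (p : L) ≠ 0 := Nat.cast_ne_zero.2 hp.out.ne_zero
  have hprod : ∀ τ : L →+* PadicAlgCl p,
      slp p (τ (∏ i, α i ^ e i)) = ∑ i, (e i : ℝ) * slp p (τ (α i)) := by
    intro τ
    rw [map_prod, slp_prod]
    · refine Finset.sum_congr rfl fun i _ => ?_
      rw [map_pow, slp_pow]
    · intro i _
      rw [map_pow]
      exact pow_ne_zero _ ((map_ne_zero τ).2 (h.ne_zero i))
  constructor
  · rintro ⟨s, hs, h1⟩ τ
    have h2 := congrArg (fun x => slp p (τ x)) h1
    simp only [map_pow, map_natCast, slp_pow, slp_p] at h2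
    have h3 := hprod (τ : L →+* PadicAlgCl p)
    have h3' : slp p (τ (∏ i, α i ^ e i)) = ∑ i, (e i : ℝ) * slp p (τ (α i)) := h3
    rw [h3'] at h2
    have hs' : (s : ℝ) ≠ 0 := Nat.cast_ne_zero.2 hs.ne'
    apply mul_left_cancel₀ hs'
    rw [h2]
    push_cast
    ring
  · intro hτ
    set β : L := (∏ i, α i ^ e i) / (p : L) ^ (a * j) with hβ
    have hβ' : β * (p : L) ^ (a * j) = ∏ i, α i ^ e i :=
      div_mul_cancel₀ _ (pow_ne_zero _ hp0)
    have h0 : (∏ i, α i ^ e i) ≠ 0 := Finset.prod_ne_zero_iff.2 fun i _ =>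
      pow_ne_zero _ (h.ne_zero i)
    have hβ0 : β ≠ 0 := div_ne_zero h0 (pow_ne_zero _ hp0)
    have hint : IsIntegral ℤ β := by
      apply Pool.Agent.H485R3.isIntegral_of_norm_le
      intro l hl τ
      by_cases hlp : l = p
      · subst hlp
        have h1 := congrArg (fun x => slp l (τ x)) hβ'
        have h2 : slp l (τ (β * (l : L) ^ (a * j))) =
            slp l (τ β) + a * j := by
          rw [map_mul, slp_mul ((map_ne_zero τ).2 hβ0)
            ((map_ne_zero τ).2 (pow_ne_zero _ hp0)), map_pow, map_natCast, slp_pow, slp_p]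
          push_cast
          ring
        have h3 : slp l (τ (∏ i, α i ^ e i)) = a * j :=
          (hprod (τ : L →+* PadicAlgCl l)).trans (hτ τ)
        rw [← hβ', h2] at h3
        have h4 : slp l (τ β) = 0 := by linarith
        exact (slp_nonneg_iff ((map_ne_zero τ).2 hβ0)).1 h4.ge
      · have h1 : ‖τ (∏ i, α i ^ e i)‖ ≤ 1 := by
          rw [map_prod, norm_prod]
          apply Finset.prod_le_one (fun i _ => norm_nonneg _)
          intro i _
          rw [map_pow, norm_pow]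
          exact pow_le_one₀ (norm_nonneg _)
            (h.norm_le l (τ : L →+* PadicAlgCl l) i)
        have h2 : ‖(p : PadicAlgCl l)‖ = 1 := by
          have h3 : (p : PadicAlgCl l) = algebraMap ℚ_[l] (PadicAlgCl l) (p : ℚ_[l]) := by
            rw [map_natCast]
          rw [h3, PadicAlgCl.norm_extends]
          have h4 : ‖((p : ℤ) : ℚ_[l])‖ = 1 := by
            have h5 := Padic.norm_int_le_one (p := l) (p : ℤ)
            have h6 : ¬ ‖((p : ℤ) : ℚ_[l])‖ < 1 := by
              rw [Padic.norm_intCast_lt_one_iff]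
              intro h7
              have h8 : l ∣ p := by exact_mod_cast h7
              exact hlp ((Nat.prime_dvd_prime_iff_eq hl.out hp.out).1 h8)
            push Not at h6
            exact le_antisymm h5 h6
          exact_mod_cast h4
        have h3 : ‖τ β‖ = ‖τ (∏ i, α i ^ e i)‖ := by
          rw [← hβ', map_mul, norm_mul, map_pow, map_natCast, norm_pow, h2, one_pow, mul_one]
        rw [h3]
        exact h1
    obtain ⟨n, hn, hn1⟩ := kronecker hint (by
      intro φ
      have h1 : ‖φ β‖ ^ 2 = 1 := by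
        have h2 := congrArg (fun x => ‖φ x‖ ^ 2) hβ'
        have h3 : ‖φ (∏ i, α i ^ e i)‖ ^ 2 = ((p : ℝ) ^ a) ^ (2 * j) := by
          rw [map_prod, norm_prod, ← Finset.prod_pow, ← hj, ← Finset.prod_pow_eq_pow_sum]
          refine Finset.prod_congr rfl fun i _ => ?_
          rw [map_pow, norm_pow, ← pow_mul, mul_comm (e i) 2, pow_mul,
            show ‖φ (α i)‖ ^ 2 = ((p : ℝ) ^ a) ^ w i from h.abs (φ : L →+* ℂ) i, ← pow_mul,
            mul_comm (w i)]
        have h4 : ‖φ (β * (p : L) ^ (a * j))‖ ^ 2 =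
            ‖φ β‖ ^ 2 * ((p : ℝ) ^ a) ^ (2 * j) := by
          rw [map_mul, norm_mul, map_pow, map_natCast, norm_pow, Complex.norm_natCast, mul_pow]
          congr 1
          ring
        rw [hβ', h3] at h4
        have h5 : ((p : ℝ) ^ a) ^ (2 * j) ≠ 0 := by
          have : (0 : ℝ) < p := by exact_mod_cast hp.out.pos
          positivity
        exact (mul_right_cancel₀ h5 (by rw [one_mul]; exact h4)).symm
      have h2 := norm_nonneg (φ β)
      nlinarith)
    refine ⟨n, hn, ?_⟩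
    rw [← hβ', mul_pow, hn1, one_mul, ← pow_mul]
    congr 1
    ring

/-- The relations are the solutions of linear equations with bounded coefficients. -/
theorem Weil.exists_sols [Normal ℚ L] {b : ℕ} {α : Fin b → L}
    {w : Fin b → ℕ} (h : Weil p a α w) (ha : 0 < a) {D c : ℕ} (hw : ∀ i, w i < c) (hD : 0 < D)
    (hslope : ∀ (τ : L →+* PadicAlgCl p) (i : Fin b), ∃ r : ℕ,
      (D : ℝ) * slp p (τ (α i)) = a * r) :
    ∃ (R : Set (Fin b → Fin (D * c))) (w' : Fin b → Fin c), ∀ e : Fin b → ℕ,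
      e ∈ sols D R w' ↔ ∃ j, ∑ i, e i * w i = 2 * j ∧
        ∃ s, 0 < s ∧ (∏ i, α i ^ e i) ^ s = (p : L) ^ (a * s * j) := by
  have ha' : (0 : ℝ) < a := by exact_mod_cast ha
  have hD' : (0 : ℝ) < D := by exact_mod_cast hD
  choose r hr using hslope
  have hrlt : ∀ τ i, r τ i < D * c := by
    intro τ i
    have h1 := (h.slp_le τ i).2
    have h2 : (a : ℝ) * r τ i ≤ a * (D * w i) := by
      rw [← hr τ i]
      calc (D : ℝ) * slp p (τ (α i)) ≤ D * (a * w i) := mul_le_mul_of_nonneg_left h1 hD'.le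
        _ = _ := by ring
    have h3 : (r τ i : ℝ) ≤ D * w i := le_of_mul_le_mul_left h2 ha'
    have h4 : r τ i ≤ D * w i := by exact_mod_cast h3
    exact h4.trans_lt ((Nat.mul_lt_mul_left hD).2 (hw i))
  refine ⟨Set.range fun τ : L →ₐ[ℚ] PadicAlgCl p =>
    fun i => ⟨r τ i, hrlt τ i⟩, fun i => ⟨w i, hw i⟩, fun e => ?_⟩
  simp only [sols, Set.mem_ofPred_eq, Set.forall_mem_range]
  have key : ∀ (j : ℕ), ∑ i, e i * w i = 2 * j → ∀ τ : L →ₐ[ℚ] PadicAlgCl p,
      (2 * ∑ i, e i * r τ i = D * ∑ i, e i * w i ↔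
        ∑ i, (e i : ℝ) * slp p (τ (α i)) = a * j) := by
    intro j hj τ
    rw [hj]
    have h1 : (D : ℝ) * ∑ i, (e i : ℝ) * slp p (τ (α i)) = a * ∑ i, (e i : ℝ) * r τ i := by
      rw [Finset.mul_sum, Finset.mul_sum]
      refine Finset.sum_congr rfl fun i _ => ?_
      have := hr (τ : L →+* PadicAlgCl p) i
      calc (D : ℝ) * ((e i : ℝ) * slp p (τ (α i))) = (e i : ℝ) * (D * slp p (τ (α i))) := by ring
        _ = (e i : ℝ) * (a * r τ i) := by
          congr 1
        _ = _ := by ring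
    constructor
    · intro h2
      have h3 : (2 : ℝ) * ∑ i, (e i : ℝ) * r τ i = D * (2 * j) := by exact_mod_cast h2
      apply mul_left_cancel₀ hD'.ne'
      rw [h1]
      have h4 : ∑ i, (e i : ℝ) * (r τ i : ℝ) = D * j := by linarith
      rw [h4]
      ring
    · intro h2
      rw [h2] at h1
      have h3 : ∑ i, (e i : ℝ) * (r τ i : ℝ) = D * j := by
        apply mul_left_cancel₀ ha'.ne'
        rw [← h1]
        ring
      have h4 : (2 : ℝ) * ∑ i, (e i : ℝ) * r τ i = D * (2 * j) := by rw [h3]; ring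
      exact_mod_cast h4
  constructor
  · rintro ⟨⟨j, hj⟩, h2⟩
    refine ⟨j, hj, (h.rel_iff e j hj).2 fun τ => (key j hj τ).1 ?_⟩
    exact h2 τ
  · rintro ⟨j, hj, h2⟩
    refine ⟨⟨j, hj⟩, fun τ => (key j hj τ).2 ((h.rel_iff e j hj).1 h2 τ)⟩

end Rel

end Pool.Agent.X297.UB
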