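import Pool.Agent.W458.MF.Geo6
import Pool.Agent.Y129.Pow
import Pool.Agent.X297.UB.Num
import Pool.Agent.X297.UB.Defs

/-!
# Tate classes on powers are generated in bounded degree: the geometric part
-/

open CategoryTheory AlgebraicGeometry Polynomial

universe u v

namespace Pool.Agent.X297.UB

open Pool.Agent.H914 Pool.Agent.W534 Pool.Agent.H914.VarClass Pool.Agent.H914.VarClass.Obj
  Pool.Agent.H914.WeilCohomology Pool.Agent.H281R3.HT Pool.Agent.W536.RR Pool.Agent.W458.MF
open Pool.Agent.Y129 (pw pj liftN liftN_pj word exists_word_basis prod_perm)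

variable {k : Type u} [Field k] {𝒱 : VarClass k} {ops : CycleOps 𝒱}
  {W : WeilCohomology.{u, v} ops} {X Z : 𝒱.Obj} {p : ℕ} {Φ : FrobSystem W p}

/-- A family of homogeneous generalised eigenvectors. -/
structure EigFam (Φ : FrobSystem W p) (X : 𝒱.Obj) (b : ℕ) where
  x : Fin b → W.H X
  lam : Fin b → W.K
  deg : Fin b → ℕ
  mem : ∀ i, x i ∈ W.gr X (deg i)
  gen : ∀ i, x i ∈ (frob Φ X 1).maxGenEigenspace (lam i)

namespace EigFam

variable {b : ℕ} (E : EigFam Φ X b)

/-- The pull-back of a member of the family. -/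
noncomputable def val (a : Fin b × (Z ⟶ X)) : W.H Z := W.map a.2 (E.x a.1)

lemma val_mem (a : Fin b × (Z ⟶ X)) : E.val a ∈ W.gr Z (E.deg a.1) := W.map_mem _ (E.mem _)

lemma prod_mem (l : List (Fin b × (Z ⟶ X))) :
    (l.map E.val).prod ∈ W.gr Z (l.map fun a => E.deg a.1).sum := by
  induction l with
  | nil => exact W.one_mem Z
  | cons a l ih =>
    simp only [List.map_cons, List.prod_cons, List.sum_cons]
    exact W.mul_mem (E.val_mem a) ih

lemma perm {l l' : List (Fin b × (Z ⟶ X))} (h : l.Perm l') :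
    (l.map E.val).prod = (l'.map E.val).prod ∨ (l.map E.val).prod = -(l'.map E.val).prod := by
  apply prod_perm (h.map _)
  intro x hx y hy
  obtain ⟨a, -, rfl⟩ := List.mem_map.1 hx
  obtain ⟨a', -, rfl⟩ := List.mem_map.1 hy
  rw [W.comm (E.val_mem a) (E.val_mem a')]
  rcases neg_one_pow_eq_or W.K (E.deg a.1 * E.deg a'.1) with h | h
  · left; rw [h, one_smul]
  · right; rw [h, neg_one_smul]

lemma gen_val {a : Fin b × (Z ⟶ X)} {t t' : ℕ} (h : Comm Φ a.2 t)
    (ht : t' * Φ.e X = t * Φ.e Z) :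
    E.val a ∈ (frob Φ Z t).maxGenEigenspace (E.lam a.1 ^ t') := by
  obtain ⟨s', -, h2, h3⟩ := h
  have e1 : s' = t' := Nat.eq_of_mul_eq_mul_right (Φ.e_pos X) (h2.trans ht.symm)
  subst e1
  have h4 : E.x a.1 ∈ (frob Φ X s').maxGenEigenspace (E.lam a.1 ^ s') := by
    have h5 : frob Φ X s' = frob Φ X 1 ^ s' := by rw [← frob_mul_eq, one_mul]
    rw [h5]
    exact W534.gen_mono _ _ s' (E.gen a.1)
  have h6 := gen_map (T := frob Φ X s') (T' := frob Φ Z t) (θ := (W.map a.2).toLinearMap)
    (c := 1) (fun x => by rw [one_smul]; exact h3 x) h4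
  rw [one_mul] at h6
  exact h6

lemma gen_prod {l : List (Fin b × (Z ⟶ X))} {t t' : ℕ} (h : ∀ a ∈ l, Comm Φ a.2 t)
    (ht : t' * Φ.e X = t * Φ.e Z) : (l.map E.val).prod ∈
      (frob Φ Z t).maxGenEigenspace ((l.map fun a => E.lam a.1).prod ^ t') := by
  induction l with
  | nil =>
    simp only [List.map_nil, List.prod_nil, one_pow]
    apply eig_mem_gen
    rw [frob_one, one_smul]
  | cons a l ih =>
    simp only [List.map_cons, List.prod_cons, mul_pow]
    exact gen_mul (LinearMap.mul W.K (W.H Z)) (fun x y => frob_mul_apply Φ t x y)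
      (E.gen_val (h a List.mem_cons_self) ht) (ih fun a' ha' => h a' (List.mem_cons_of_mem _ ha'))

lemma prod_lam (l : List (Fin b × (Z ⟶ X))) : (l.map fun a => E.lam a.1).prod =
    ∏ i, E.lam i ^ (l.map Prod.fst).count i := by
  induction l with
  | nil => simp
  | cons a l ih =>
    rw [List.map_cons, List.prod_cons, ih]
    simp only [List.map_cons, List.count_cons, pow_add, Finset.prod_mul_distrib, beq_iff_eq]
    rw [mul_comm]
    congr 1
    rw [Finset.prod_eq_single a.1]
    · rw [if_pos rfl, pow_one]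
    · intro i _ hi
      rw [if_neg (Ne.symm hi), pow_zero]
    · intro h
      exact absurd (Finset.mem_univ _) h

lemma sum_deg (l : List (Fin b × (Z ⟶ X))) : (l.map fun a => E.deg a.1).sum =
    ∑ i, (l.map Prod.fst).count i * E.deg i := by
  induction l with
  | nil => simp
  | cons a l ih =>
    rw [List.map_cons, List.sum_cons, ih]
    simp only [List.map_cons, List.count_cons, add_mul, Finset.sum_add_distrib, beq_iff_eq]
    rw [add_comm]
    congr 1
    rw [Finset.sum_eq_single a.1]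
    · rw [if_pos rfl, one_mul]
    · intro i _ hi
      rw [if_neg (Ne.symm hi), zero_mul]
    · intro h
      exact absurd (Finset.mem_univ _) h

/-- The multiplicative relations. -/
def Rel (e : Fin b → ℕ) : Prop :=
  ∃ j, ∑ i, e i * E.deg i = 2 * j ∧
    ∃ s, 0 < s ∧ (∏ i, E.lam i ^ e i) ^ s = (p : W.K) ^ (Φ.e X * s * j)

lemma rel_of_tate {l : List (Fin b × (Z ⟶ X))} {t t' j : ℕ} (h : ∀ a ∈ l, Comm Φ a.2 t)
    (ht : t' * Φ.e X = t * Φ.e Z) (ht' : 0 < t') (h0 : (l.map E.val).prod ≠ 0)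
    (hT : (l.map E.val).prod ∈ genTate Φ Z t j) : E.Rel fun i => (l.map Prod.fst).count i := by
  have h1 := eq_of_mem_gen (E.gen_prod h ht) hT.1 h0
  have h2 : (l.map fun a => E.deg a.1).sum = 2 * j := by
    by_contra hne
    apply h0
    rw [← proj_same (W.isInternal Z) hT.2]
    exact proj_ne _ (E.prod_mem l) hne
  refine ⟨j, ?_, t', ht', ?_⟩
  · rw [← E.sum_deg, h2]
  · rw [← E.prod_lam, h1, card_pow]
    congr 2
    rw [mul_comm (Φ.e Z), ← ht, mul_comm]

lemma exists_comm_list (Φ : FrobSystem W p) (l : List (Fin b × (Z ⟶ X))) :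
    ∃ t, 0 < t ∧ ∀ r, 0 < r → ∀ a ∈ l, Comm Φ a.2 (t * r) := by
  induction l with
  | nil => exact ⟨1, one_pos, fun r _ a ha => absurd ha List.not_mem_nil⟩
  | cons a l ih =>
    obtain ⟨t, ht, h⟩ := ih
    obtain ⟨s, hs, h'⟩ := exists_comm Φ a.2
    refine ⟨s * t, Nat.mul_pos hs ht, fun r hr c hc => ?_⟩
    rcases List.mem_cons.1 hc with rfl | hc
    · rw [mul_assoc]
      exact h' _ (Nat.mul_pos ht hr)
    · rw [mul_comm s t, mul_assoc]
      exact h _ (Nat.mul_pos hs hr) c hc

lemma exists_level (Φ : FrobSystem W p) (l : List (Fin b × (Z ⟶ X))) :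
    ∃ t t', 0 < t ∧ 0 < t' ∧ ∀ r, 0 < r → (∀ a ∈ l, Comm Φ a.2 (t * r)) ∧
      t' * r * Φ.e X = t * r * Φ.e Z := by
  obtain ⟨t, ht, h⟩ := exists_comm_list Φ l
  refine ⟨t * Φ.e X, t * Φ.e Z, Nat.mul_pos ht (Φ.e_pos X), Nat.mul_pos ht (Φ.e_pos Z),
    fun r hr => ⟨?_, by ring⟩⟩
  intro a ha
  rw [mul_assoc]
  exact h _ (Nat.mul_pos (Φ.e_pos X) hr) a ha

lemma exists_ofFn {α : Type*} (l : List α) (n : ℕ) (h : l.length = n) :
    ∃ F : Fin n → α, l = List.ofFn F := by
  subst h
  exact ⟨l.get, (List.ofFn_get l).symm⟩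

/-- A product which is a relation is the pull-back of a generalised Tate class on a power. -/
lemma block {l : List (Fin b × (Z ⟶ X))} {m : ℕ} (hm : l.length = m + 1)
    (hrel : E.Rel fun i => (l.map Prod.fst).count i) :
    ∃ (g : Z ⟶ pw X m) (s j : ℕ), 0 < s ∧ ∃ y ∈ genTate Φ (pw X m) s j,
      W.map g y = (l.map E.val).prod := by
  obtain ⟨F, rfl⟩ := exists_ofFn l (m + 1) hm
  set l' : List (Fin b × (pw X m ⟶ X)) := List.ofFn fun r => ((F r).1, pj X m r) with hl'
  have hc : l'.map Prod.fst = (List.ofFn F).map Prod.fst := by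
    rw [hl', List.map_ofFn, List.map_ofFn]
    rfl
  obtain ⟨t, t', ht, ht', hlev⟩ := exists_level Φ l'
  obtain ⟨j, hj, s, hs, hs2⟩ := hrel
  obtain ⟨h1, h2⟩ := hlev s hs
  refine ⟨liftN X m (fun r => (F r).2), t * s, j, Nat.mul_pos ht hs, (l'.map E.val).prod,
    ⟨?_, ?_⟩, ?_⟩
  · have h3 := E.gen_prod h1 h2
    rw [E.prod_lam, hc, mul_comm t' s, pow_mul, hs2, ← pow_mul] at h3
    have h4 : (card Φ (pw X m) (t * s) : W.K) ^ j = (p : W.K) ^ (Φ.e X * s * j * t') := by
      rw [card_pow]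
      congr 1
      calc Φ.e (pw X m) * (t * s) * j = (t * s * Φ.e (pw X m)) * j := by ring
        _ = (t' * s * Φ.e X) * j := by rw [h2]
        _ = _ := by ring
    rw [h4]
    exact h3
  · have h3 := E.prod_mem l'
    rw [E.sum_deg, hc, hj] at h3
    exact h3
  · rw [map_list_prod, List.map_map, hl', List.map_ofFn, List.map_ofFn]
    congr 2
    funext r
    simp only [Function.comp_apply, val]
    rw [← W.map_comp, liftN_pj]

/-- The generalised Tate classes in the span of products are generated by pull-backs of generalised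
Tate classes on powers with few factors. -/
lemma mem_adjoin {N : ℕ}
    (hblocks : ∀ l : List (Fin b × (Z ⟶ X)), E.Rel (fun i => (l.map Prod.fst).count i) →
      ∃ L : List (List (Fin b × (Z ⟶ X))), l.Perm L.flatten ∧ ∀ l' ∈ L, l' ≠ [] ∧ l'.length ≤ N ∧
        E.Rel fun i => (l'.map Prod.fst).count i)
    {l : List (Fin b × (Z ⟶ X))} (hrel : E.Rel fun i => (l.map Prod.fst).count i) :
    (l.map E.val).prod ∈ Algebra.adjoin W.K {c : W.H Z | ∃ m < N, ∃ (g : Z ⟶ pw X m) (s j : ℕ),
      0 < s ∧ ∃ y ∈ genTate Φ (pw X m) s j, W.map g y = c} := by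
  obtain ⟨L, hL, hL2⟩ := hblocks l hrel
  have h1 : (L.flatten.map E.val).prod ∈ Algebra.adjoin W.K {c : W.H Z | ∃ m < N,
      ∃ (g : Z ⟶ pw X m) (s j : ℕ), 0 < s ∧ ∃ y ∈ genTate Φ (pw X m) s j, W.map g y = c} := by
    clear hL
    induction L with
    | nil => exact Subalgebra.one_mem _
    | cons l' L ih =>
      rw [List.flatten_cons, List.map_append, List.prod_append]
      refine Subalgebra.mul_mem _ ?_ (ih fun l'' h => hL2 l'' (List.mem_cons_of_mem _ h))
      obtain ⟨h2, h3, h4⟩ := hL2 l' List.mem_cons_self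
      obtain ⟨m, hm⟩ : ∃ m, l'.length = m + 1 :=
        ⟨l'.length - 1, by have := List.length_pos_iff.2 h2; omega⟩
      obtain ⟨g, s, j, hs, y, hy, hg⟩ := E.block hm h4
      exact Algebra.subset_adjoin ⟨m, by omega, g, s, j, hs, y, hy, hg⟩
  rcases E.perm hL with h | h
  · rw [h]; exact h1
  · rw [h]; exact Subalgebra.neg_mem _ h1

end EigFam

/-- A basis which consists of homogeneous generalised eigenvectors. -/
lemma exists_eig_basis [IsAlgClosed W.K] (Φ : FrobSystem W p) (X : 𝒱.Obj) :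
    ∃ v : Module.Basis (Fin (Module.finrank W.K (W.H X))) W.K (W.H X),
      ∀ i, ∃ (d : ℕ) (lam : W.K), v i ∈ W.gr X d ∧ v i ∈ (frob Φ X 1).maxGenEigenspace lam := by
  set S : Set (W.H X) := {x | ∃ (d : ℕ) (lam : W.K), x ∈ W.gr X d ∧
    x ∈ (frob Φ X 1).maxGenEigenspace lam} with hS
  have htop : Submodule.span W.K S = ⊤ := by
    rw [eq_top_iff, ← (W.isInternal X).submodule_iSup_eq_top]
    refine iSup_le fun d x hx => ?_
    have h1 := span_gen_sub (frob Φ X 1) (S := W.gr X d) (fun x hx => W.map_mem _ hx) hx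
    refine Submodule.span_mono ?_ h1
    rintro y ⟨hy, lam, hlam⟩
    exact ⟨d, lam, hy, hlam⟩
  obtain ⟨f, hf, hf2, hf3⟩ := Submodule.exists_fun_fin_finrank_span_eq W.K S
  have hn : Module.finrank W.K (Submodule.span W.K S) = Module.finrank W.K (W.H X) := by
    rw [htop, finrank_top]
  let v := Module.Basis.mk hf3 (by rw [hf2, htop])
  refine ⟨v.reindex (finCongr hn), fun i => ?_⟩
  rw [Module.Basis.reindex_apply, Module.Basis.mk_apply]
  exact hf _

/-- An eigenvalue on `H^i` is a root of the characteristic polynomial. -/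
lemma isRoot_of_gen (σ : W.K →+* ℂ) {d : ℕ} {lam : W.K} {x : W.H X} (hx : x ∈ W.gr X d)
    (hx0 : x ≠ 0) (hg : x ∈ (frob Φ X 1).maxGenEigenspace lam) :
    (frobPoly Φ σ X 1 d).IsRoot (σ lam) := by
  rw [Module.End.mem_maxGenEigenspace] at hg
  obtain ⟨n, hn⟩ := hg
  have h1 : ∃ y ∈ W.gr X d, y ≠ 0 ∧ frob Φ X 1 y = lam • y := by
    induction n with
    | zero =>
      rw [pow_zero, Module.End.one_apply] at hn
      exact absurd hn hx0
    | succ n ih =>
      by_cases h0 : ((frob Φ X 1 - lam • (1 : Module.End W.K (W.H X))) ^ n) x = 0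
      · exact ih h0
      · refine ⟨_, ?_, h0, ?_⟩
        · clear hn h0 ih
          induction n with
          | zero => rw [pow_zero, Module.End.one_apply]; exact hx
          | succ n ih =>
            rw [pow_succ', Module.End.mul_apply, LinearMap.sub_apply, LinearMap.smul_apply,
              Module.End.one_apply]
            exact Submodule.sub_mem _ (W.map_mem _ ih) (Submodule.smul_mem _ _ ih)
        · rw [pow_succ', Module.End.mul_apply, LinearMap.sub_apply, LinearMap.smul_apply,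
            Module.End.one_apply, sub_eq_zero] at hn
          exact hn
  obtain ⟨y, hy, hy0, hy1⟩ := h1
  rw [frobPoly_eq, IsRoot.def, Polynomial.eval_map, Polynomial.eval₂_hom]
  have h2 : (frobOn Φ X 1 d).HasEigenvalue lam := by
    refine Module.End.hasEigenvalue_of_hasEigenvector (x := (⟨y, hy⟩ : W.gr X d)) ⟨?_, ?_⟩
    · rw [Module.End.mem_eigenspace_iff]
      exact Subtype.ext hy1
    · intro h
      exact hy0 (congrArg Subtype.val h)
  have h3 := (Module.End.hasEigenvalue_iff_isRoot_charpoly _ _).1 h2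
  rw [IsRoot.def] at h3
  rw [h3, map_zero]

end Pool.Agent.X297.UB
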