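import Mathlib
import Pool.Agent.X297.UB.Dickson

/-!
# Explicit bounds for the minimal solutions of linear systems with bounded coefficients
-/

set_option autoImplicit false

open Finset

namespace Pool.Agent.X297.UB

attribute [local instance] Matrix.seminormedAddCommGroup

variable {b : ℕ} {S : Set (Fin b → ℤ)} {A : ℕ}

/-- A small integral solution whose support is contained in the support of a given solution. -/
lemma exists_small (hA : 1 ≤ A) (hS : ∀ s ∈ S, ∀ i, |s i| ≤ A) {x : Fin b → ℚ} (hx : x ≠ 0)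
    (hxS : ∀ s ∈ S, ∑ i, (s i : ℚ) * x i = 0) :
    ∃ u : Fin b → ℤ, u ≠ 0 ∧ (∀ i, x i = 0 → u i = 0) ∧ (∀ s ∈ S, ∑ i, s i * u i = 0) ∧
      ∀ i, |u i| ≤ ((b * A) ^ b : ℕ) := by
  classical
  have hb : 1 ≤ b := by
    by_contra h
    have hb0 : b = 0 := by omega
    subst hb0
    exact hx (funext fun i => i.elim0)
  have hbA : 1 ≤ b * A := Nat.mul_pos hb hA
  let I := {i : Fin b // x i ≠ 0}
  obtain ⟨i₀, hi₀⟩ := Function.ne_iff.1 hx
  -- sums over the support
  have hsum : ∀ (g : Fin b → ℤ) (t : I → ℤ),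
      ∑ i, g i * (if h : x i ≠ 0 then t ⟨i, h⟩ else 0) = ∑ i : I, g i * t i := by
    intro g t
    rw [← Finset.sum_filter_of_ne (p := fun i => x i ≠ 0) (by
      intro i _ h h0
      apply h
      rw [dif_neg (not_not.2 h0), mul_zero])]
    rw [Finset.sum_subtype (Finset.univ.filter fun i => x i ≠ 0) (p := fun i => x i ≠ 0)
      (by simp)]
    refine Finset.sum_congr rfl fun i _ => ?_
    rw [dif_pos i.2]
  -- the space spanned by the restrictions of the equations
  set T : Set (I → ℚ) := {y | ∃ s ∈ S, y = fun i : I => (s i.1 : ℚ)} with hT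
  obtain ⟨m, hm, f, hf1, hf2⟩ : ∃ m : ℕ, Module.finrank ℚ (Submodule.span ℚ T) = m ∧
      ∃ f : Fin m → (I → ℚ), (∀ j, f j ∈ T) ∧
        Submodule.span ℚ (Set.range f) = Submodule.span ℚ T := by
    obtain ⟨f, hf1, hf2, hf3⟩ := Submodule.exists_fun_fin_finrank_span_eq ℚ T
    exact ⟨_, rfl, f, hf1, hf2⟩
  choose s hs1 hs2 using hf1
  have hmI : m < Fintype.card I := by
    have h1 : m ≤ Fintype.card I := by
      have := Submodule.finrank_le (Submodule.span ℚ T)
      rwa [Module.finrank_fintype_fun_eq_card, hm] at this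
    refine lt_of_le_of_ne h1 fun h2 => ?_
    have h3 : Submodule.span ℚ T = ⊤ := by
      apply Submodule.eq_top_of_finrank_eq
      rw [Module.finrank_fintype_fun_eq_card, hm]
      exact h2
    have h4 : ∀ y ∈ Submodule.span ℚ T, ∑ i : I, y i * x i = 0 := by
      intro y hy
      induction hy using Submodule.span_induction with
      | mem y hy =>
        obtain ⟨s, hs, rfl⟩ := hy
        have h5 := hxS s hs
        rw [← Finset.sum_filter_of_ne (p := fun i => x i ≠ 0) (by
          intro i _ h h0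
          apply h
          rw [h0, mul_zero])] at h5
        rw [Finset.sum_subtype (Finset.univ.filter fun i => x i ≠ 0) (p := fun i => x i ≠ 0)
          (by simp)] at h5
        exact h5
      | zero => simp
      | add y z _ _ hy hz =>
        simp only [Pi.add_apply, add_mul, Finset.sum_add_distrib, hy, hz, add_zero]
      | smul c y _ hy =>
        simp only [Pi.smul_apply, smul_eq_mul, mul_assoc, ← Finset.mul_sum, hy, mul_zero]
    have h5 := h4 (Pi.single ⟨i₀, hi₀⟩ 1) (by rw [h3]; exact Submodule.mem_top)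
    rw [Finset.sum_eq_single (⟨i₀, hi₀⟩ : I)] at h5
    · rw [Pi.single_eq_same, one_mul] at h5
      exact hi₀ h5
    · intro i _ hi
      rw [Pi.single_eq_of_ne hi, zero_mul]
    · intro h
      exact absurd (Finset.mem_univ _) h
  -- a small solution of the spanning equations
  obtain ⟨t, ht0, ht1, ht2⟩ : ∃ t : I → ℤ, t ≠ 0 ∧ (∀ j, ∑ i : I, s j i * t i = 0) ∧
      ∀ i, |t i| ≤ ((b * A) ^ b : ℕ) := by
    by_cases hm0 : m = 0
    · refine ⟨Pi.single ⟨i₀, hi₀⟩ 1, ?_, ?_, ?_⟩
      · intro h
        have := congrFun h ⟨i₀, hi₀⟩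
        rw [Pi.single_eq_same] at this
        exact one_ne_zero this
      · intro j
        exact absurd j.2 (by omega)
      · intro i
        have h1 : |(Pi.single ⟨i₀, hi₀⟩ 1 : I → ℤ) i| ≤ 1 := by
          by_cases hi : i = ⟨i₀, hi₀⟩
          · rw [hi, Pi.single_eq_same, abs_one]
          · rw [Pi.single_eq_of_ne hi, abs_zero]
            exact zero_le_one
        refine h1.trans ?_
        exact_mod_cast Nat.one_le_pow _ _ hbA
    · let M : Matrix (Fin m) I ℤ := fun j i => s j i
      obtain ⟨t, ht0, ht1, ht2⟩ := Int.Matrix.exists_ne_zero_int_vec_norm_le M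
        (by rw [Fintype.card_fin]; exact hmI) (by rw [Fintype.card_fin]; omega)
      refine ⟨t, ht0, ?_, ?_⟩
      · intro j
        exact congrFun ht1 j
      · intro i
        have hMn : ‖M‖ ≤ A := by
          rw [Matrix.norm_le_iff (by positivity)]
          intro j i
          rw [Int.norm_eq_abs]
          exact_mod_cast hS _ (hs1 j) i
        have hn : (Fintype.card I : ℝ) ≤ b := by
          have := Fintype.card_subtype_le (fun i : Fin b => x i ≠ 0)
          rw [Fintype.card_fin] at this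
          exact_mod_cast this
        have hnm : (1 : ℝ) ≤ (Fintype.card I : ℝ) - m := by
          have : m + 1 ≤ Fintype.card I := hmI
          have : (m : ℝ) + 1 ≤ Fintype.card I := by exact_mod_cast this
          linarith
        have hcard : Fintype.card (Fin m) = m := Fintype.card_fin m
        have h1 : (|t i| : ℝ) ≤ ‖t‖ := by
          have := norm_le_pi_norm t i
          rwa [Int.norm_eq_abs] at this
        have h2 : ((Fintype.card I : ℝ) * max 1 ‖M‖) ^
            (((Fintype.card (Fin m) : ℕ) : ℝ) / (Fintype.card I - (Fintype.card (Fin m) : ℕ))) ≤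
            ((b * A : ℕ) : ℝ) ^ b := by
          rw [hcard]
          have hbase : (Fintype.card I : ℝ) * max 1 ‖M‖ ≤ ((b * A : ℕ) : ℝ) := by
            push_cast
            refine mul_le_mul hn (max_le ?_ hMn) (by positivity) (by positivity)
            exact_mod_cast hA
          have hbA' : (1 : ℝ) ≤ ((b * A : ℕ) : ℝ) := by exact_mod_cast hbA
          have hexp : (m : ℝ) / (Fintype.card I - m) ≤ (b : ℝ) := by
            rw [div_le_iff₀ (by linarith)]
            have h3 : (m : ℝ) ≤ b := by linarith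
            calc (m : ℝ) ≤ b := h3
              _ = b * 1 := (mul_one _).symm
              _ ≤ b * (Fintype.card I - m) := mul_le_mul_of_nonneg_left hnm (by positivity)
          calc ((Fintype.card I : ℝ) * max 1 ‖M‖) ^ ((m : ℝ) / (Fintype.card I - m))
              ≤ ((b * A : ℕ) : ℝ) ^ ((m : ℝ) / (Fintype.card I - m)) :=
                Real.rpow_le_rpow (by positivity) hbase (div_nonneg (by positivity) (by linarith))
            _ ≤ ((b * A : ℕ) : ℝ) ^ (b : ℝ) := Real.rpow_le_rpow_of_exponent_le hbA' hexp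
            _ = _ := Real.rpow_natCast _ _
        have h3 := (h1.trans ht2).trans h2
        exact_mod_cast h3
  refine ⟨fun i => if h : x i ≠ 0 then t ⟨i, h⟩ else 0, ?_, ?_, ?_, ?_⟩
  · intro h
    obtain ⟨i, hi⟩ := Function.ne_iff.1 ht0
    have := congrFun h i.1
    simp only [dif_pos i.2] at this
    exact hi this
  · intro i hi
    exact dif_neg (not_not.2 hi)
  · intro s' hs'
    rw [hsum]
    have h1 : (fun i : I => (s' i : ℚ)) ∈ Submodule.span ℚ (Set.range f) := by
      rw [hf2]
      exact Submodule.subset_span ⟨s', hs', rfl⟩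
    have h2 : ∀ y ∈ Submodule.span ℚ (Set.range f), ∑ i : I, y i * (t i : ℚ) = 0 := by
      intro y hy
      induction hy using Submodule.span_induction with
      | mem y hy =>
        obtain ⟨j, rfl⟩ := hy
        rw [hs2 j]
        have h4 := ht1 j
        beta_reduce
        exact_mod_cast h4
      | zero => simp
      | add y z _ _ hy hz =>
        simp only [Pi.add_apply, add_mul, Finset.sum_add_distrib, hy, hz, add_zero]
      | smul c y _ hy =>
        simp only [Pi.smul_apply, smul_eq_mul, mul_assoc, ← Finset.mul_sum, hy, mul_zero]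
    have h3 := h2 _ h1
    exact_mod_cast h3
  · intro i
    by_cases h : x i ≠ 0
    · simp only [dif_pos h]
      exact ht2 _
    · simp only [dif_neg h, abs_zero]
      positivity

/-- A small nonnegative solution. -/
lemma exists_small_nonneg (hA : 1 ≤ A) (hS : ∀ s ∈ S, ∀ i, |s i| ≤ A) :
    ∀ (n : ℕ) (x : Fin b → ℚ), (Finset.univ.filter fun i => x i ≠ 0).card ≤ n → x ≠ 0 →
      (∀ i, 0 ≤ x i) → (∀ s ∈ S, ∑ i, (s i : ℚ) * x i = 0) →
      ∃ u : Fin b → ℕ, u ≠ 0 ∧ (∀ i, x i = 0 → u i = 0) ∧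
        (∀ s ∈ S, ∑ i, s i * (u i : ℤ) = 0) ∧ ∀ i, u i ≤ (b * A) ^ b := by
  classical
  intro n
  induction n with
  | zero =>
    intro x hn hx _ _
    exfalso
    apply hx
    have h1 : (Finset.univ.filter fun i => x i ≠ 0) = ∅ := Finset.card_eq_zero.1 (by omega)
    funext i
    by_contra h
    have : i ∈ (Finset.univ.filter fun i => x i ≠ 0) := by simpa using h
    rw [h1] at this
    exact absurd this (Finset.notMem_empty i)
  | succ n ih =>
    intro x hn hx hx0 hxS
    obtain ⟨u, hu0, hu1, hu2, hu3⟩ := exists_small hA hS hx hxS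
    have hpos : ∀ v : Fin b → ℤ, v ≠ 0 → (∀ i, x i = 0 → v i = 0) →
        (∀ s ∈ S, ∑ i, s i * v i = 0) → (∀ i, |v i| ≤ ((b * A) ^ b : ℕ)) → (∀ i, 0 ≤ v i) →
        ∃ u : Fin b → ℕ, u ≠ 0 ∧ (∀ i, x i = 0 → u i = 0) ∧
          (∀ s ∈ S, ∑ i, s i * (u i : ℤ) = 0) ∧ ∀ i, u i ≤ (b * A) ^ b := by
      intro v hv0 hv1 hv2 hv3 hv4
      have hcast : ∀ i, ((v i).toNat : ℤ) = v i := fun i => Int.toNat_of_nonneg (hv4 i)
      refine ⟨fun i => (v i).toNat, ?_, ?_, ?_, ?_⟩
      · intro h
        apply hv0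
        funext i
        have h1 := congrFun h i
        have h2 := hcast i
        simp only [Pi.zero_apply] at h1
        rw [h1] at h2
        exact h2.symm
      · intro i hi
        simp only [hv1 i hi, Int.toNat_zero]
      · intro s hs
        simp only [hcast]
        exact hv2 s hs
      · intro i
        have h1 := hv3 i
        rw [abs_of_nonneg (hv4 i), ← hcast i] at h1
        exact_mod_cast h1
    by_cases h1 : ∀ i, 0 ≤ u i
    · exact hpos u hu0 hu1 hu2 hu3 h1
    by_cases h2 : ∀ i, u i ≤ 0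
    · refine hpos (-u) (neg_ne_zero.2 hu0) (fun i hi => ?_) (fun s hs => ?_) (fun i => ?_)
        (fun i => ?_)
      · rw [Pi.neg_apply, hu1 i hi, neg_zero]
      · simp only [Pi.neg_apply, mul_neg, Finset.sum_neg_distrib, hu2 s hs, neg_zero]
      · rw [Pi.neg_apply, abs_neg]
        exact hu3 i
      · rw [Pi.neg_apply]
        have := h2 i
        omega
    push Not at h1 h2
    obtain ⟨i₁, hi₁⟩ := h1
    obtain ⟨i₂, hi₂⟩ := h2
    -- the smallest quotient
    obtain ⟨j, hj, hjmin⟩ := Finset.exists_min_image (Finset.univ.filter fun i => 0 < u i)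
      (fun i => x i / u i) ⟨i₂, by simpa using hi₂⟩
    have huj : 0 < u j := by simpa using hj
    set l : ℚ := x j / u j with hl
    have hl0 : 0 ≤ l := div_nonneg (hx0 j) (by exact_mod_cast huj.le)
    set y : Fin b → ℚ := fun i => x i - l * u i with hy
    have hyj : y j = 0 := by
      have : (u j : ℚ) ≠ 0 := by exact_mod_cast huj.ne'
      simp only [hy, hl]
      field_simp
      ring
    have hy0 : ∀ i, 0 ≤ y i := by
      intro i
      simp only [hy]
      by_cases hui : 0 < u i
      · have h3 := hjmin i (by simpa using hui)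
        have h4 : (0 : ℚ) < u i := by exact_mod_cast hui
        rw [le_div_iff₀ h4] at h3
        linarith
      · have h4 : (u i : ℚ) ≤ 0 := by exact_mod_cast not_lt.1 hui
        have := mul_nonpos_of_nonneg_of_nonpos hl0 h4
        have := hx0 i
        linarith
    have hyx : ∀ i, x i = 0 → y i = 0 := by
      intro i hi
      simp only [hy, hi, hu1 i hi, Int.cast_zero, mul_zero, sub_zero]
    have hxj : x j ≠ 0 := by
      intro h
      rw [hu1 j h] at huj
      exact lt_irrefl _ huj
    have hlpos : 0 < l := lt_of_le_of_ne hl0 fun h => by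
      rw [hl] at h
      rcases div_eq_zero_iff.1 h.symm with h5 | h5
      · exact hxj h5
      · exact absurd h5 (by exact_mod_cast huj.ne')
    have hyne : y ≠ 0 := by
      intro h
      have h3 := congrFun h i₁
      simp only [hy, Pi.zero_apply] at h3
      have h4 : (u i₁ : ℚ) < 0 := by exact_mod_cast hi₁
      have h5 := mul_neg_of_pos_of_neg hlpos h4
      have h6 := hx0 i₁
      linarith
    have hcard : (Finset.univ.filter fun i => y i ≠ 0).card ≤ n := by
      have h3 : (Finset.univ.filter fun i => y i ≠ 0) ⊂ (Finset.univ.filter fun i => x i ≠ 0) := by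
        rw [Finset.ssubset_iff_of_subset]
        · refine ⟨j, by simpa using hxj, ?_⟩
          simp [hyj]
        · intro i hi
          simp only [Finset.mem_filter, Finset.mem_univ, true_and] at hi ⊢
          exact fun h => hi (hyx i h)
      have := Finset.card_lt_card h3
      omega
    obtain ⟨v, hv0, hv1, hv2, hv3⟩ := ih y hcard hyne hy0 (by
      intro s hs
      simp only [hy, mul_sub, Finset.sum_sub_distrib, hxS s hs, zero_sub, neg_eq_zero]
      have h3 := hu2 s hs
      have h4 : ∑ i, (s i : ℚ) * (l * u i) = l * ((∑ i, s i * u i : ℤ) : ℚ) := by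
        push_cast
        rw [Finset.mul_sum]
        exact Finset.sum_congr rfl fun i _ => by ring
      rw [h4, h3, Int.cast_zero, mul_zero])
    exact ⟨v, hv0, fun i hi => hv1 i (hyx i hi), hv2, hv3⟩

/-- A nonnegative solution is a combination of few small nonnegative solutions. -/
lemma exists_decomp (hA : 1 ≤ A) (hS : ∀ s ∈ S, ∀ i, |s i| ≤ A) :
    ∀ (n : ℕ) (x : Fin b → ℚ), (Finset.univ.filter fun i => x i ≠ 0).card ≤ n →
      (∀ i, 0 ≤ x i) → (∀ s ∈ S, ∑ i, (s i : ℚ) * x i = 0) →
      ∃ L : List (ℚ × (Fin b → ℕ)), L.length ≤ n ∧ (∀ a ∈ L, 0 ≤ a.1 ∧ a.2 ≠ 0 ∧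
        (∀ s ∈ S, ∑ i, s i * (a.2 i : ℤ) = 0) ∧ ∀ i, a.2 i ≤ (b * A) ^ b) ∧
        ∀ i, x i = (L.map fun a => a.1 * (a.2 i : ℚ)).sum := by
  classical
  intro n
  induction n with
  | zero =>
    intro x hn _ _
    refine ⟨[], le_rfl, fun a ha => absurd ha List.not_mem_nil, fun i => ?_⟩
    have h1 : (Finset.univ.filter fun i => x i ≠ 0) = ∅ := Finset.card_eq_zero.1 (by omega)
    by_contra h
    have : i ∈ (Finset.univ.filter fun i => x i ≠ 0) := by simpa using h
    rw [h1] at this
    exact absurd this (Finset.notMem_empty i)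
  | succ n ih =>
    intro x hn hx0 hxS
    by_cases hx : x = 0
    · refine ⟨[], Nat.zero_le _, fun a ha => absurd ha List.not_mem_nil, fun i => ?_⟩
      rw [hx]
      simp
    obtain ⟨u, hu0, hu1, hu2, hu3⟩ := exists_small_nonneg hA hS _ x le_rfl hx hx0 hxS
    obtain ⟨i₂, hi₂⟩ := Function.ne_iff.1 hu0
    obtain ⟨j, hj, hjmin⟩ := Finset.exists_min_image (Finset.univ.filter fun i => 0 < u i)
      (fun i => x i / u i) ⟨i₂, by simpa using Nat.pos_of_ne_zero hi₂⟩
    have huj : 0 < u j := by simpa using hj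
    set l : ℚ := x j / u j with hl
    have hl0 : 0 ≤ l := div_nonneg (hx0 j) (by exact_mod_cast huj.le)
    set y : Fin b → ℚ := fun i => x i - l * u i with hy
    have hyj : y j = 0 := by
      have : (u j : ℚ) ≠ 0 := by exact_mod_cast huj.ne'
      simp only [hy, hl]
      field_simp
      ring
    have hy0 : ∀ i, 0 ≤ y i := by
      intro i
      simp only [hy]
      by_cases hui : 0 < u i
      · have h3 := hjmin i (by simpa using hui)
        have h4 : (0 : ℚ) < u i := by exact_mod_cast hui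
        rw [le_div_iff₀ h4] at h3
        linarith
      · have h4 : u i = 0 := by omega
        rw [h4, Nat.cast_zero, mul_zero, sub_zero]
        exact hx0 i
    have hyx : ∀ i, x i = 0 → y i = 0 := by
      intro i hi
      simp only [hy, hi, hu1 i hi, Nat.cast_zero, mul_zero, sub_zero]
    have hxj : x j ≠ 0 := by
      intro h
      rw [hu1 j h] at huj
      exact lt_irrefl _ huj
    have hcard : (Finset.univ.filter fun i => y i ≠ 0).card ≤ n := by
      have h3 : (Finset.univ.filter fun i => y i ≠ 0) ⊂ (Finset.univ.filter fun i => x i ≠ 0) := by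
        rw [Finset.ssubset_iff_of_subset]
        · refine ⟨j, by simpa using hxj, ?_⟩
          simp [hyj]
        · intro i hi
          simp only [Finset.mem_filter, Finset.mem_univ, true_and] at hi ⊢
          exact fun h => hi (hyx i h)
      have := Finset.card_lt_card h3
      omega
    obtain ⟨L, hL1, hL2, hL3⟩ := ih y hcard hy0 (by
      intro s hs
      simp only [hy, mul_sub, Finset.sum_sub_distrib, hxS s hs, zero_sub, neg_eq_zero]
      have h3 := hu2 s hs
      have h4 : ∑ i, (s i : ℚ) * (l * u i) = l * ((∑ i, s i * (u i : ℤ) : ℤ) : ℚ) := by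
        push_cast
        rw [Finset.mul_sum]
        exact Finset.sum_congr rfl fun i _ => by ring
      rw [h4, h3, Int.cast_zero, mul_zero])
    refine ⟨(l, u) :: L, ?_, ?_, ?_⟩
    · rw [List.length_cons]
      omega
    · intro a ha
      rcases List.mem_cons.1 ha with rfl | ha
      · exact ⟨hl0, hu0, hu2, hu3⟩
      · exact hL2 a ha
    · intro i
      rw [List.map_cons, List.sum_cons, ← hL3 i]
      simp only [hy]
      ring

/-- Every nonzero nonnegative solution dominates a small one. -/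
lemma exists_small_le (hA : 1 ≤ A) (hS : ∀ s ∈ S, ∀ i, |s i| ≤ A) {e : Fin b → ℕ} (he : e ≠ 0)
    (heS : ∀ s ∈ S, ∑ i, s i * (e i : ℤ) = 0) :
    ∃ m : Fin b → ℕ, m ≠ 0 ∧ m ≤ e ∧ (∀ s ∈ S, ∑ i, s i * (m i : ℤ) = 0) ∧
      ∑ i, m i ≤ b ^ 2 * (b * A) ^ b := by
  classical
  have hb : 1 ≤ b := by
    by_contra h
    have hb0 : b = 0 := by omega
    subst hb0
    exact he (funext fun i => i.elim0)
  obtain ⟨L, hL1, hL2, hL3⟩ := exists_decomp hA hS b (fun i => (e i : ℚ))
    ((Finset.card_le_univ _).trans (by rw [Fintype.card_fin])) (fun i => Nat.cast_nonneg _)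
    (by
      intro s hs
      exact_mod_cast heS s hs)
  by_cases h : ∃ a ∈ L, 1 ≤ a.1
  · obtain ⟨a, ha, ha1⟩ := h
    obtain ⟨h1, h2, h3, h4⟩ := hL2 a ha
    refine ⟨a.2, h2, ?_, h3, ?_⟩
    · intro i
      have h5 : a.1 * (a.2 i : ℚ) ≤ (L.map fun a => a.1 * (a.2 i : ℚ)).sum := by
        apply List.single_le_sum
        · intro z hz
          obtain ⟨c, hc, rfl⟩ := List.mem_map.1 hz
          exact mul_nonneg (hL2 c hc).1 (Nat.cast_nonneg _)
        · exact List.mem_map.2 ⟨a, ha, rfl⟩
      rw [← hL3 i] at h5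
      have h6 : (a.2 i : ℚ) ≤ a.1 * a.2 i := le_mul_of_one_le_left (Nat.cast_nonneg _) ha1
      exact_mod_cast h6.trans h5
    · calc ∑ i, a.2 i ≤ ∑ i : Fin b, (b * A) ^ b := Finset.sum_le_sum fun i _ => h4 i
        _ = b * (b * A) ^ b := by rw [Finset.sum_const, Finset.card_univ, Fintype.card_fin,
            smul_eq_mul]
        _ ≤ b ^ 2 * (b * A) ^ b := Nat.mul_le_mul_right _ (by nlinarith)
  · push Not at h
    refine ⟨e, he, le_rfl, heS, ?_⟩
    have h1 : ∀ i, e i ≤ b * (b * A) ^ b := by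
      intro i
      have h2 : (L.map fun a => a.1 * (a.2 i : ℚ)).sum ≤ L.length • (((b * A) ^ b : ℕ) : ℚ) := by
        have h3 := List.sum_le_card_nsmul (L.map fun a => a.1 * (a.2 i : ℚ))
          (((b * A) ^ b : ℕ) : ℚ) (by
            intro z hz
            obtain ⟨c, hc, rfl⟩ := List.mem_map.1 hz
            obtain ⟨h4, -, -, h5⟩ := hL2 c hc
            calc c.1 * (c.2 i : ℚ) ≤ 1 * (c.2 i : ℚ) :=
                  mul_le_mul_of_nonneg_right (h c hc).le (Nat.cast_nonneg _)
              _ = c.2 i := one_mul _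
              _ ≤ _ := by exact_mod_cast h5 i)
        rwa [List.length_map] at h3
      rw [← hL3 i, nsmul_eq_mul] at h2
      have h3 : (e i : ℚ) ≤ ((b * (b * A) ^ b : ℕ) : ℚ) := by
        refine h2.trans ?_
        rw [Nat.cast_mul]
        refine mul_le_mul_of_nonneg_right ?_ (Nat.cast_nonneg _)
        exact_mod_cast hL1
      exact_mod_cast h3
    calc ∑ i, e i ≤ ∑ i : Fin b, b * (b * A) ^ b := Finset.sum_le_sum fun i _ => h1 i
      _ = b * (b * (b * A) ^ b) := by rw [Finset.sum_const, Finset.card_univ, Fintype.card_fin,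
          smul_eq_mul]
      _ = _ := by ring

/-- The explicit uniform bound. -/
theorem explicit_uniform {b C D : ℕ} (hC : 0 < C) (hD : 0 < D) (R : Set (Fin b → Fin (D * C)))
    (w : Fin b → Fin C) {e : Fin b → ℕ} (he : e ∈ sols D R w) (he0 : e ≠ 0) :
    ∃ m ∈ sols D R w, m ≠ 0 ∧ m ≤ e ∧ ∑ i, m i ≤ 2 * b ^ 2 * (b * (2 * (D * C))) ^ b := by
  classical
  set S : Set (Fin b → ℤ) := {s | ∃ r ∈ R, s = fun i => 2 * (r i : ℤ) - D * (w i : ℤ)} with hSdef
  have hA : 1 ≤ 2 * (D * C) := by
    have := Nat.mul_pos hD hC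
    omega
  have hS : ∀ s ∈ S, ∀ i, |s i| ≤ ((2 * (D * C) : ℕ) : ℤ) := by
    rintro s ⟨r, -, rfl⟩ i
    have h1 : ((r i : ℕ) : ℤ) < ((D * C : ℕ) : ℤ) := by exact_mod_cast (r i).2
    have h2 : D * (w i : ℕ) ≤ D * C := Nat.mul_le_mul_left _ (w i).2.le
    have h3 : (D : ℤ) * (w i : ℕ) ≤ ((D * C : ℕ) : ℤ) := by exact_mod_cast h2
    have h4 : (0 : ℤ) ≤ (D : ℤ) * (w i : ℕ) := by positivity
    have h5 : (0 : ℤ) ≤ ((r i : ℕ) : ℤ) := by positivity
    rw [abs_le]
    push_cast at h1 h3 ⊢
    constructor <;> linarith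
  have hiff : ∀ f : Fin b → ℕ, (∀ s ∈ S, ∑ i, s i * (f i : ℤ) = 0) ↔
      ∀ r ∈ R, 2 * ∑ i, f i * (r i : ℕ) = D * ∑ i, f i * (w i : ℕ) := by
    intro f
    have h1 : ∀ r : Fin b → Fin (D * C), ∑ i, (2 * (r i : ℤ) - D * (w i : ℤ)) * (f i : ℤ) =
        ((2 * ∑ i, f i * (r i : ℕ) : ℕ) : ℤ) - ((D * ∑ i, f i * (w i : ℕ) : ℕ) : ℤ) := by
      intro r
      push_cast
      rw [Finset.mul_sum, Finset.mul_sum, ← Finset.sum_sub_distrib]
      exact Finset.sum_congr rfl fun i _ => by ring
    constructor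
    · intro h r hr
      have h2 := h _ ⟨r, hr, rfl⟩
      rw [h1 r] at h2
      exact_mod_cast sub_eq_zero.1 h2
    · rintro h s ⟨r, hr, rfl⟩
      rw [h1 r, h r hr, sub_self]
  set K := b ^ 2 * (b * (2 * (D * C))) ^ b with hK
  have hK2 : 2 * b ^ 2 * (b * (2 * (D * C))) ^ b = 2 * K := by rw [hK]; ring
  rw [hK2]
  obtain ⟨he1, he2⟩ := he
  obtain ⟨m, hm0, hme, hm1, hm2⟩ := exists_small_le hA hS he0 ((hiff e).2 he2)
  by_cases hpar : 2 ∣ ∑ i, m i * (w i : ℕ)
  · exact ⟨m, ⟨hpar, (hiff m).1 hm1⟩, hm0, hme, by omega⟩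
  -- the rest
  have hsub : ∀ (g : Fin b → ℕ) (n : Fin b → ℕ), n ≤ e →
      ∑ i, (e - n) i * g i + ∑ i, n i * g i = ∑ i, e i * g i := by
    intro g n hn
    rw [← Finset.sum_add_distrib]
    refine Finset.sum_congr rfl fun i _ => ?_
    rw [← add_mul]
    congr 1
    exact Nat.sub_add_cancel (hn i)
  have he' : e - m ≠ 0 := by
    intro h
    have h1 := hsub (fun i => (w i : ℕ)) m hme
    rw [h] at h1
    simp only [Pi.zero_apply, zero_mul, Finset.sum_const_zero, zero_add] at h1
    rw [h1] at hpar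
    exact hpar he1
  obtain ⟨m', hm0', hme', hm1', hm2'⟩ := exists_small_le hA hS he' (by
    rw [hiff]
    intro r hr
    have h1 := hsub (fun i => (w i : ℕ)) m hme
    have h2 := hsub (fun i => (r i : ℕ)) m hme
    have h3 := he2 r hr
    have h4 := (hiff m).1 hm1 r hr
    rw [← h1, ← h2, mul_add, mul_add] at h3
    omega)
  have hle : m' ≤ e := fun i => (hme' i).trans (Nat.sub_le _ _)
  by_cases hpar' : 2 ∣ ∑ i, m' i * (w i : ℕ)
  · exact ⟨m', ⟨hpar', (hiff m').1 hm1'⟩, hm0', hle, by omega⟩
  refine ⟨m + m', ⟨?_, ?_⟩, ?_, ?_, ?_⟩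
  · have h1 : ∑ i, (m + m') i * (w i : ℕ) = ∑ i, m i * (w i : ℕ) + ∑ i, m' i * (w i : ℕ) := by
      rw [← Finset.sum_add_distrib]
      exact Finset.sum_congr rfl fun i _ => by rw [Pi.add_apply, add_mul]
    rw [h1]
    omega
  · intro r hr
    have h1 : ∀ g : Fin b → ℕ, ∑ i, (m + m') i * g i = ∑ i, m i * g i + ∑ i, m' i * g i := by
      intro g
      rw [← Finset.sum_add_distrib]
      exact Finset.sum_congr rfl fun i _ => by rw [Pi.add_apply, add_mul]
    rw [h1 fun i => (r i : ℕ), h1 fun i => (w i : ℕ), mul_add, mul_add,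
      (hiff m).1 hm1 r hr, (hiff m').1 hm1' r hr]
  · intro h
    apply hm0
    funext i
    have := congrFun h i
    simp only [Pi.add_apply, Pi.zero_apply] at this
    simp only [Pi.zero_apply]
    omega
  · intro i
    have h1 := hme' i
    have h2 : m i ≤ e i := hme i
    simp only [Pi.sub_apply] at h1
    change m i + m' i ≤ e i
    omega
  · have h1 : ∑ i, (m + m') i = ∑ i, m i + ∑ i, m' i := by
      rw [← Finset.sum_add_distrib]
      rfl
    omega

end Pool.Agent.X297.UB
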