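import Pool.Agent.X297.UB.Geo
import Pool.Agent.X297.UB.Explicit
import Pool.Agent.W216.MF.Pole
import Pool.Agent.Y133.Half.TateHalfDefs

/-!
# Tate classes on powers are generated in bounded degree
-/

open CategoryTheory AlgebraicGeometry Polynomial

universe u v

namespace Pool.Agent.X297.UB

open Pool.Agent.H914 Pool.Agent.W534 Pool.Agent.H914.VarClass Pool.Agent.H914.VarClass.Obj
  Pool.Agent.H914.WeilCohomology Pool.Agent.H281R3.HT Pool.Agent.W536.RR Pool.Agent.W458.MF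
open Pool.Agent.Y129 (pw pj liftN liftN_pj word exists_word_basis prod_perm)
open Pool.Agent.Y133.Half (FrobSemisimple)

section

variable {k : Type u} [Field k] {𝒱 : VarClass k} {ops : CycleOps 𝒱}
  {W : WeilCohomology.{u, v} ops} {X : 𝒱.Obj} {p : ℕ} [hp : Fact p.Prime] {Φ : FrobSystem W p}

lemma exists_poly {σ : W.K →+* ℂ} (hRH : RiemannHyp Φ σ X) (hN : IntegralNewton Φ σ X) {b : ℕ}
    (hb : Module.finrank W.K (W.H X) ≤ b) {d : ℕ} {lam : W.K} {x : W.H X} (hx : x ∈ W.gr X d)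
    (hx0 : x ≠ 0) (hg : x ∈ (frob Φ X 1).maxGenEigenspace lam) :
    ∃ f : ℤ[X], f.Monic ∧ aeval lam f = 0 ∧
      (∀ z : ℂ, aeval z f = 0 → ‖z‖ ^ 2 = ((p : ℝ) ^ Φ.e X) ^ d) ∧
      ∀ y : PadicAlgCl p, aeval y f = 0 → 0 ≤ slp p y → y ≠ 0 → ∃ r : ℕ,
        ((Nat.factorial b : ℕ) : ℝ) * slp p y = Φ.e X * r := by
  classical
  obtain ⟨f, hf, hnewt⟩ := hN d
  have hinjC : Function.Injective (Int.castRingHom ℂ) := Int.cast_injective
  have hfm : f.Monic := by
    apply Polynomial.monic_of_injective hinjC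
    rw [← hf, frobPoly_eq]
    exact (LinearMap.charpoly_monic _).map _
  have hdeg : f.natDegree ≤ b := by
    have h1 : (f.map (Int.castRingHom ℂ)).natDegree = f.natDegree := hfm.natDegree_map _
    rw [← h1, ← hf, frobPoly_eq, (LinearMap.charpoly_monic _).natDegree_map,
      LinearMap.charpoly_natDegree]
    exact (Submodule.finrank_le _).trans hb
  have hroot := isRoot_of_gen σ hx hx0 hg
  refine ⟨f, hfm, ?_, ?_, ?_⟩
  · apply σ.injective
    rw [map_zero]
    have h1 : σ (aeval lam f) = aeval (σ lam) f := by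
      rw [aeval_def, Polynomial.hom_eval₂, aeval_def]
      congr 1
      exact RingHom.ext_int _ _
    rw [h1]
    rw [hf, IsRoot.def, Polynomial.eval_map] at hroot
    exact hroot
  · intro z hz
    have h1 := hRH 1 one_pos d z (by
      rw [hf, IsRoot.def, Polynomial.eval_map]
      exact hz)
    rw [h1, card, mul_one]
    push_cast
    rfl
  · intro y hy hy1 hy0
    have ha : (0 : ℝ) < Φ.e X := by exact_mod_cast Φ.e_pos X
    set r : ℝ := slp p y / Φ.e X with hr
    obtain ⟨c, hc⟩ := hnewt r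
    have hnorm : ‖y‖ = (card Φ X 1 : ℝ) ^ (-r) := by
      rw [card, mul_one, norm_of_slp hy0, Nat.cast_pow, ← Real.rpow_natCast, ← Real.rpow_mul
        (Nat.cast_nonneg p)]
      congr 1
      rw [hr]
      field_simp
    set m : ℕ := slopeMult p f (card Φ X 1) r with hm
    have hm1 : 0 < m := by
      rw [hm, slopeMult, Multiset.countP_pos]
      exact ⟨y, (mem_aroots.2 ⟨hfm.ne_zero, hy⟩), hnorm⟩
    have hm2 : m ≤ b := by
      rw [hm, slopeMult]
      refine (Multiset.countP_le_card _ _).trans ?_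
      refine (Polynomial.card_roots' _).trans ?_
      rw [hfm.natDegree_map]
      exact hdeg
    obtain ⟨u, hu⟩ : m ∣ Nat.factorial b := Nat.dvd_factorial hm1 hm2
    have hr0 : 0 ≤ r := div_nonneg hy1 ha.le
    have hc0 : 0 ≤ c := by
      have : (0 : ℝ) ≤ c := by
        rw [← hc]
        positivity
      exact_mod_cast this
    obtain ⟨c', rfl⟩ := Int.eq_ofNat_of_zero_le hc0
    refine ⟨u * c', ?_⟩
    have h2 : slp p y = Φ.e X * r := by
      rw [hr]
      field_simp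
    rw [hu, h2]
    push_cast at hc ⊢
    calc (m : ℝ) * u * (Φ.e X * r) = Φ.e X * u * (r * m) := by ring
      _ = Φ.e X * (u * c') := by rw [hc]; ring

omit hp in
lemma exists_fam [IsAlgClosed W.K] (Φ : FrobSystem W p) (X : 𝒱.Obj) {b : ℕ}
    (hb : Module.finrank W.K (W.H X) ≤ b) :
    ∃ (h : ℕ) (hh : h ≤ b) (v : Module.Basis (Fin h) W.K (W.H X)) (E : EigFam Φ X b),
      (∀ i : Fin h, E.x (Fin.castLE hh i) = v i) ∧
        ∀ i, E.x i = 0 → E.deg i = 0 ∧ E.lam i = 1 := by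
  classical
  obtain ⟨v, hv⟩ := exists_eig_basis Φ X
  choose dg lam hv1 hv2 using hv
  refine ⟨_, hb, v,
    { x := fun i => if hi : i.1 < Module.finrank W.K (W.H X) then v ⟨i.1, hi⟩ else 0
      lam := fun i => if hi : i.1 < Module.finrank W.K (W.H X) then lam ⟨i.1, hi⟩ else 1
      deg := fun i => if hi : i.1 < Module.finrank W.K (W.H X) then dg ⟨i.1, hi⟩ else 0
      mem := ?_
      gen := ?_ }, ?_, ?_⟩
  · intro i
    by_cases hi : i.1 < Module.finrank W.K (W.H X)
    · simp only [dif_pos hi]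
      exact hv1 _
    · simp only [dif_neg hi]
      exact Submodule.zero_mem _
  · intro i
    by_cases hi : i.1 < Module.finrank W.K (W.H X)
    · simp only [dif_pos hi]
      exact hv2 _
    · simp only [dif_neg hi]
      exact Submodule.zero_mem _
  · intro i
    have hi : (Fin.castLE hb i).1 < Module.finrank W.K (W.H X) := i.2
    simp only [dif_pos hi]
    rfl
  · intro i hi0
    by_cases hi : i.1 < Module.finrank W.K (W.H X)
    · simp only [dif_pos hi] at hi0
      exact absurd hi0 (v.ne_zero _)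
    · exact ⟨dif_neg hi, dif_neg hi⟩

omit hp in
lemma fam_deg {b : ℕ} (E : EigFam Φ X b) {d : ℕ} (hd : X.dim ≤ d)
    (hE : ∀ i, E.x i = 0 → E.deg i = 0 ∧ E.lam i = 1) (i : Fin b) : E.deg i < 2 * d + 1 := by
  by_cases h0 : E.x i = 0
  · rw [(hE i h0).1]
    omega
  · by_contra hlt
    push Not at hlt
    have h1 := E.mem i
    rw [W.gr_eq_bot X (E.deg i) (by omega)] at h1
    exact h0 ((Submodule.mem_bot _).1 h1)

lemma fam_poly {σ : W.K →+* ℂ} (hRH : RiemannHyp Φ σ X) (hN : IntegralNewton Φ σ X) {b : ℕ}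
    (hb : Module.finrank W.K (W.H X) ≤ b) (E : EigFam Φ X b)
    (hE : ∀ i, E.x i = 0 → E.deg i = 0 ∧ E.lam i = 1) (i : Fin b) :
    ∃ f : ℤ[X], f.Monic ∧ aeval (E.lam i) f = 0 ∧
      (∀ z : ℂ, aeval z f = 0 → ‖z‖ ^ 2 = ((p : ℝ) ^ Φ.e X) ^ E.deg i) ∧
      ∀ y : PadicAlgCl p, aeval y f = 0 → 0 ≤ slp p y → y ≠ 0 → ∃ r : ℕ,
        ((Nat.factorial b : ℕ) : ℝ) * slp p y = Φ.e X * r := by
  by_cases h0 : E.x i = 0
  · obtain ⟨e1, e2⟩ := hE i h0
    rw [e1, e2]
    refine ⟨Polynomial.X - 1, monic_X_sub_C 1, by simp, ?_, ?_⟩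
    · intro z hz
      have : z = 1 := by
        simpa [sub_eq_zero] using hz
      rw [this]
      simp
    · intro y hy _ _
      have : y = 1 := by
        simpa [sub_eq_zero] using hy
      refine ⟨0, ?_⟩
      rw [this, slp_one]
      simp
  · exact exists_poly hRH hN hb (E.mem i) h0 (E.gen i)

lemma exists_qbar (K : Type*) [Field K] [CharZero K] [IsAlgClosed K] :
    ∃ (L : IntermediateField ℚ K) (_ : Normal ℚ L), ∀ x : K, IsIntegral ℤ x → x ∈ L := by
  refine ⟨algebraicClosure ℚ K, ?_, fun x hx => ?_⟩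
  · have h := algebraicClosure.isAlgClosure ℚ K
    exact @IsAlgClosure.normal ℚ (algebraicClosure ℚ K) _ _ (algebraicClosure ℚ K).algebra' h
  · rw [mem_algebraicClosure_iff]
    refine IsIntegral.isAlgebraic ?_
    exact IsIntegral.tower_top (R := ℤ) hx

/-- The relations are the solutions of one of finitely many linear systems. -/
lemma fam_rel' {σ : W.K →+* ℂ} (hRH : RiemannHyp Φ σ X)
    (hN : IntegralNewton Φ σ X) {b d : ℕ} (hd : X.dim ≤ d)
    (hb : Module.finrank W.K (W.H X) ≤ b) (E : EigFam Φ X b)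
    (hE : ∀ i, E.x i = 0 → E.deg i = 0 ∧ E.lam i = 1) {L : Type v} [Field L] [Algebra ℚ L]
    [Normal ℚ L] (θ : L →+* W.K) (hθ : ∀ x : W.K, IsIntegral ℤ x → ∃ a, θ a = x) :
    ∃ (R : Set (Fin b → Fin (Nat.factorial b * (2 * d + 1)))) (w' : Fin b → Fin (2 * d + 1)),
      ∀ e : Fin b → ℕ, E.Rel e ↔ e ∈ sols (Nat.factorial b) R w' := by
  choose f hf1 hf2 hf3 hf4 using fam_poly hRH hN hb E hE
  choose α hα using fun i => hθ (E.lam i) ⟨f i, hf1 i, hf2 i⟩
  have hαroot : ∀ i, aeval (α i) (f i) = 0 := by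
    intro i
    apply θ.injective
    rw [map_zero]
    have h1 : θ (aeval (α i) (f i)) = aeval (E.lam i) (f i) := by
      rw [aeval_def, Polynomial.hom_eval₂, aeval_def, hα]
      congr 1
      exact RingHom.ext_int _ _
    rw [h1, hf2]
  have hWeil : Weil p (Φ.e X) α E.deg := ⟨fun i => ⟨f i, hf1 i, hαroot i, hf3 i⟩⟩
  obtain ⟨R, w', hRw⟩ := hWeil.exists_sols (Φ.e_pos X) (fam_deg E hd hE) (Nat.factorial_pos b) (by
    intro τ i
    obtain ⟨r, hr⟩ := hf4 i (τ (α i)) (aeval_hom τ (hαroot i)) (hWeil.slp_le τ i).1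
      ((map_ne_zero τ).2 (hWeil.ne_zero i))
    exact ⟨r, hr⟩)
  refine ⟨R, w', fun e => ?_⟩
  rw [hRw]
  refine exists_congr fun j => and_congr Iff.rfl (exists_congr fun s => and_congr Iff.rfl ?_)
  have h1 : θ ((∏ i, α i ^ e i) ^ s) = (∏ i, E.lam i ^ e i) ^ s := by
    rw [map_pow, map_prod]
    congr 1
    refine Finset.prod_congr rfl fun i _ => ?_
    rw [map_pow, hα]
  have h2 : θ ((p : L) ^ (Φ.e X * s * j)) = (p : W.K) ^ (Φ.e X * s * j) := by
    rw [map_pow, map_natCast]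
  rw [← h1, ← h2]
  exact θ.injective.eq_iff

lemma fam_rel {σ : W.K →+* ℂ} [IsAlgClosed W.K] (hRH : RiemannHyp Φ σ X)
    (hN : IntegralNewton Φ σ X) {b d : ℕ} (hd : X.dim ≤ d)
    (hb : Module.finrank W.K (W.H X) ≤ b) (E : EigFam Φ X b)
    (hE : ∀ i, E.x i = 0 → E.deg i = 0 ∧ E.lam i = 1) :
    ∃ (R : Set (Fin b → Fin (Nat.factorial b * (2 * d + 1)))) (w' : Fin b → Fin (2 * d + 1)),
      ∀ e : Fin b → ℕ, E.Rel e ↔ e ∈ sols (Nat.factorial b) R w' := by
  obtain ⟨L, hL, h⟩ := exists_qbar W.K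
  exact fam_rel' hRH hN hd hb E hE (algebraMap L W.K) fun x hx => ⟨⟨x, h x hx⟩, rfl⟩

end

/-- The generalised Tate classes on the powers are combinations of products of members of the
family which are generalised Tate classes. -/
lemma exists_span {k : Type u} [Field k] {𝒱 : VarClass k} {ops : CycleOps 𝒱}
    {W : WeilCohomology.{u, v} ops} {p : ℕ} [IsAlgClosed W.K] (Φ : FrobSystem W p) (X : 𝒱.Obj)
    {b : ℕ} (hb : Module.finrank W.K (W.H X) ≤ b) :
    ∃ E : EigFam Φ X b, (∀ i, E.x i = 0 → E.deg i = 0 ∧ E.lam i = 1) ∧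
      ∀ n s j, 0 < s → ∀ c ∈ genTate Φ (pw X n) s j, ∃ t t', 0 < t ∧ 0 < t' ∧
        t' * Φ.e X = t * Φ.e (pw X n) ∧
        c ∈ Submodule.span W.K {c' | ∃ l : List (Fin b × (pw X n ⟶ X)),
          (∀ a ∈ l, Comm Φ a.2 t) ∧ (l.map E.val).prod ≠ 0 ∧
          (l.map E.val).prod ∈ genTate Φ (pw X n) t j ∧ c' = (l.map E.val).prod} := by
  obtain ⟨h, hh, v, E, hEv, hE⟩ := exists_fam Φ X hb
  refine ⟨E, hE, ?_⟩
  intro n s j hs c hc
  let wl : (Fin (n + 1) → Fin h) → List (Fin b × (pw X n ⟶ X)) := fun x =>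
    List.ofFn fun i => (Fin.castLE hh (x i), pj X n i)
  have hwl : ∀ x, word v n x = ((wl x).map E.val).prod := by
    intro x
    rw [word, List.map_ofFn]
    congr 2
    funext i
    simp only [Function.comp_apply, EigFam.val]
    rw [hEv]
  obtain ⟨e, he⟩ := exists_word_basis v n
  obtain ⟨t, t', ht, ht', hlev⟩ := EigFam.exists_level (b := 1) Φ
    (List.ofFn fun i => ((0 : Fin 1), pj X n i))
  obtain ⟨h1, h2⟩ := hlev s hs
  have hcomm : ∀ x, ∀ a ∈ wl x, Comm Φ a.2 (t * s) := by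
    intro x a ha
    obtain ⟨i, rfl⟩ := List.mem_ofFn.1 ha
    exact h1 _ (List.mem_ofFn.2 ⟨i, rfl⟩)
  refine ⟨t * s, t' * s, Nat.mul_pos ht hs, Nat.mul_pos ht' hs, h2, ?_⟩
  have h3 : c ∈ genTate Φ (pw X n) (t * s) j := genTate_mono' Φ s t j hc
  have h4 : c ∈ Submodule.span W.K (Set.range e) := by
    rw [e.span_eq]
    exact Submodule.mem_top
  have h5 := mem_span_gen (T := frob Φ (pw X n) (t * s)) (fun v' hv' => by
    obtain ⟨x, rfl⟩ := hv'
    rw [he, hwl]
    exact ⟨_, E.gen_prod (hcomm x) h2⟩) h4 h3.1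
  have h6 := Submodule.apply_mem_span_image_of_mem_span
    (H914.proj (W.isInternal (pw X n)) (2 * j)) h5
  rw [proj_same _ h3.2] at h6
  refine Submodule.span_le.2 ?_ h6
  rintro _ ⟨_, ⟨⟨x, rfl⟩, hx⟩, rfl⟩
  have h8 : e x ≠ 0 := e.ne_zero x
  rw [he, hwl] at hx h8 ⊢
  rcases proj_cases (n := 2 * j) (E.prod_mem (wl x)) with ⟨h9, h10⟩ | h9
  · rw [h9]
    exact Submodule.subset_span ⟨wl x, hcomm x, h8, ⟨hx, h10⟩, rfl⟩
  · rw [h9]
    exact Submodule.zero_mem _

/-- If the Frobenius endomorphism is semisimple, generalised Tate classes are Tate classes. -/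
lemma tate_of_semisimple {k : Type u} [Field k] {𝒱 : VarClass k} {ops : CycleOps 𝒱}
    {W : WeilCohomology.{u, v} ops} {p : ℕ} [IsAlgClosed W.K] (Φ : FrobSystem W p) (X : 𝒱.Obj)
    (hss : FrobSemisimple Φ X) {n s j : ℕ} (hs : 0 < s) {c : W.H (pw X n)}
    (hc : c ∈ genTate Φ (pw X n) s j) : IsTate Φ (pw X n) j c := by
  obtain ⟨E, -, hE⟩ := exists_span Φ X (le_refl (Module.finrank W.K (W.H X)))
  obtain ⟨t, t', ht, ht', he, h1⟩ := hE n s j hs c hc
  have hss' : (frob Φ X 1).IsSemisimple := by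
    have h2 : frob Φ X 1 = (W.map (Φ.Fr X)).toLinearMap := by
      apply LinearMap.ext
      intro x
      rw [frob_apply, W534.map_iter]
      rfl
    rw [h2]
    exact hss
  have hx : ∀ i, frob Φ X 1 (E.x i) = E.lam i • E.x i := by
    intro i
    have h2 := E.gen i
    rw [(Module.End.isFinitelySemisimple_iff_isSemisimple.mpr hss').maxGenEigenspace_eq_eigenspace,
      Module.End.mem_eigenspace_iff] at h2
    exact h2
  have hval : ∀ a : Fin (Module.finrank W.K (W.H X)) × (pw X n ⟶ X), Comm Φ a.2 t →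
      frob Φ (pw X n) t (E.val a) = E.lam a.1 ^ t' • E.val a := by
    rintro a ⟨s', -, h2, h3⟩
    have e1 : s' = t' := Nat.eq_of_mul_eq_mul_right (Φ.e_pos X) (h2.trans he.symm)
    subst e1
    rw [EigFam.val, h3]
    have h5 : frob Φ X s' = frob Φ X 1 ^ s' := by rw [← frob_mul_eq, one_mul]
    rw [h5, Module.End.pow_apply, W534.iterate_eig (fun a x => map_smul _ a x) (hx a.1) s',
      map_smul]
  have hprod : ∀ l : List (Fin (Module.finrank W.K (W.H X)) × (pw X n ⟶ X)),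
      (∀ a ∈ l, Comm Φ a.2 t) → frob Φ (pw X n) t (l.map E.val).prod =
        (l.map fun a => E.lam a.1).prod ^ t' • (l.map E.val).prod := by
    intro l
    induction l with
    | nil =>
      intro _
      rw [List.map_nil, List.map_nil, List.prod_nil, List.prod_nil, one_pow, one_smul]
      exact frob_one Φ t
    | cons a l ih =>
      intro h
      rw [List.map_cons, List.prod_cons, List.map_cons, List.prod_cons, frob_mul_apply,
        hval a (h a List.mem_cons_self), ih fun a' ha' => h a' (List.mem_cons_of_mem _ ha'),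
        smul_mul_smul_comm, mul_pow]
  refine ⟨hc.2, t, ht, ?_⟩
  rw [← card_pow]
  change frob Φ (pw X n) t c = _
  have h2 : Submodule.span W.K {c' | ∃ l : List (Fin (Module.finrank W.K (W.H X)) ×
      (pw X n ⟶ X)), (∀ a ∈ l, Comm Φ a.2 t) ∧ (l.map E.val).prod ≠ 0 ∧
      (l.map E.val).prod ∈ genTate Φ (pw X n) t j ∧ c' = (l.map E.val).prod} ≤
      (frob Φ (pw X n) t).eigenspace ((card Φ (pw X n) t : W.K) ^ j) := by
    rw [Submodule.span_le]
    rintro _ ⟨l, hl, h0, hT, rfl⟩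
    have h3 := eq_of_mem_gen (E.gen_prod hl he) hT.1 h0
    change _ ∈ (frob Φ (pw X n) t).eigenspace _
    rw [Module.End.mem_eigenspace_iff, hprod l hl, h3]
  exact Module.End.mem_eigenspace_iff.1 (h2 h1)

/-- **The generalised Tate classes on the powers of `X` are generated by those on the powers with
at most `N` factors, where `N` depends only on the Betti numbers and the dimension.** -/
theorem generated {k : Type u} [Field k] {𝒱 : VarClass k}
    {ops : CycleOps 𝒱} (W : WeilCohomology.{u, v} ops) [IsAlgClosed W.K] (σ : W.K →+* ℂ)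
    (p : ℕ) [Fact p.Prime] (Φ : FrobSystem W p) (X : 𝒱.Obj) (hRH : RiemannHyp Φ σ X)
    (hNewt : IntegralNewton Φ σ X) (n s j : ℕ) (hs : 0 < s) (c : W.H (pw X n))
    (hc : c ∈ genTate Φ (pw X n) s j) :
    c ∈ Algebra.adjoin W.K
      (pulledBack Φ X (powerBound (Module.finrank W.K (W.H X)) X.dim) n) := by
  classical
  obtain ⟨b, hb⟩ : ∃ b, Module.finrank W.K (W.H X) = b := ⟨_, rfl⟩
  obtain ⟨d, hd⟩ : ∃ d, X.dim = d := ⟨_, rfl⟩
  rw [hb, hd]
  have hbound : 2 * b ^ 2 * (b * (2 * (Nat.factorial b * (2 * d + 1)))) ^ b = powerBound b d := by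
    rw [powerBound]
    ring
  obtain ⟨E, hE, hspan⟩ := exists_span Φ X hb.le
  obtain ⟨R, w', hrel⟩ := fam_rel hRH hNewt hd.le hb.le E hE
  have hblocks : ∀ l : List (Fin b × (pw X n ⟶ X)),
      E.Rel (fun i => (l.map Prod.fst).count i) →
      ∃ LL : List (List (Fin b × (pw X n ⟶ X))), l.Perm LL.flatten ∧ ∀ l' ∈ LL,
        l' ≠ [] ∧ l'.length ≤ powerBound b d ∧ E.Rel fun i => (l'.map Prod.fst).count i := by
    intro l hl
    have h1 := exists_blocks (Prod.fst : Fin b × (pw X n ⟶ X) → Fin b) {e | E.Rel e}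
      (powerBound b d) (by
      intro e he m hm hme
      rw [Set.mem_ofPred_eq, hrel] at he hm ⊢
      exact sub_mem_sols he hm hme) (by
      intro e he he0
      rw [Set.mem_ofPred_eq, hrel] at he
      obtain ⟨m, hm, h2⟩ := explicit_uniform (by omega) (Nat.factorial_pos b) R w' he he0
      rw [hbound] at h2
      refine ⟨m, ?_, h2⟩
      rw [Set.mem_ofPred_eq, hrel]
      exact hm) l.length l le_rfl hl
    exact h1
  obtain ⟨t, t', ht, ht', he, h1⟩ := hspan n s j hs c hc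
  have h2 : Submodule.span W.K {c' | ∃ l : List (Fin b × (pw X n ⟶ X)),
      (∀ a ∈ l, Comm Φ a.2 t) ∧ (l.map E.val).prod ≠ 0 ∧
      (l.map E.val).prod ∈ genTate Φ (pw X n) t j ∧ c' = (l.map E.val).prod} ≤
      Subalgebra.toSubmodule (Algebra.adjoin W.K (pulledBack Φ X (powerBound b d) n)) := by
    rw [Submodule.span_le]
    rintro _ ⟨l, hl, h0, hT, rfl⟩
    exact E.mem_adjoin hblocks (E.rel_of_tate hl he ht' h0 hT)
  exact h2 h1

/-- Algebraic classes form a subalgebra. -/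
lemma adjoin_le_algSpan {k : Type u} [Field k] {𝒱 : VarClass k} {ops : CycleOps 𝒱}
    {W : WeilCohomology.{u, v} ops} {Z : 𝒱.Obj} {S : Set (W.H Z)}
    (hS : ∀ x ∈ S, x ∈ algSpan W Z) {c : W.H Z} (hc : c ∈ Algebra.adjoin W.K S) :
    c ∈ algSpan W Z := by
  induction hc using Algebra.adjoin_induction with
  | mem x hx => exact hS x hx
  | algebraMap r =>
    rw [Algebra.algebraMap_eq_smul_one]
    exact Submodule.smul_mem _ _ one_mem_algSpan
  | add x y _ _ hx hy => exact Submodule.add_mem _ hx hy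
  | mul x y _ _ hx hy => exact algSpan_mul hx hy

/-- **The conjectures for all powers follow from the conjectures for the powers with at most `N`
factors.** -/
theorem main {k : Type u} [Field k] {𝒱 : VarClass k}
    {ops : CycleOps 𝒱} (W : WeilCohomology.{u, v} ops) [IsAlgClosed W.K] (σ : W.K →+* ℂ)
    (p : ℕ) [hp : Fact p.Prime] (Φ : FrobSystem W p) (hRH : ∀ Z, RiemannHyp Φ σ Z)
    (X : 𝒱.Obj) (hNewt : IntegralNewton Φ σ X) {N : ℕ}
    (hN : N = powerBound (Module.finrank W.K (W.H X)) X.dim) :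
    (∀ n s j, 0 < s → ∀ c ∈ genTate Φ (pw X n) s j,
      c ∈ Algebra.adjoin W.K (pulledBack Φ X N n)) ∧
    ((∀ m < N, ∀ j ≤ (pw X m).dim, PoleFormula Φ σ (pw X m) j) →
      ∀ n, ∀ j ≤ (pw X n).dim, PoleFormula Φ σ (pw X n) j) ∧
    (FrobSemisimple Φ X → (∀ m < N, ∀ j, TateIn Φ (pw X m) j) →
      ∀ n j, TateIn Φ (pw X n) j) := by
  subst hN
  have h1 := generated W σ p Φ X (hRH X) hNewt
  have key : (∀ m < powerBound (Module.finrank W.K (W.H X)) X.dim, ∀ j ≤ (pw X m).dim,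
      SemisimpleTateIn Φ (pw X m) j) → ∀ n j, SemisimpleTateIn Φ (pw X n) j := by
    intro hT n j s hs c hc
    refine spanCycles_of_alg ?_ hc.2
    refine adjoin_le_algSpan ?_ (h1 n s j hs c hc)
    rintro x ⟨m, hm, g, s', j', hs', y, hy, rfl⟩
    by_cases hj : j' ≤ (pw X m).dim
    · exact algSpan_map _ (W397.MF.spanCycles_le_algSpan _ (hT m hm j' hj s' hs' hy))
    · have h2 := hy.2
      rw [W.gr_eq_bot (pw X m) (2 * j') (by omega)] at h2
      rw [(Submodule.mem_bot _).1 h2, map_zero]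
      exact Submodule.zero_mem _
  refine ⟨h1, ?_, ?_⟩
  · intro hP n
    have h2 := key (by
      intro m hm j hj
      obtain ⟨l, hl⟩ := Nat.exists_eq_add_of_le hj
      exact (semisimple_of_pole hp.out.one_lt (hRH _) hl.symm (hP m hm j hj)).1) n
    exact Pool.Agent.W216.MF.pole W σ p hp.out.one_lt Φ (pw X n) (hRH _) fun j _ => h2 j
  · intro hss hT n j c hc
    have h2 := key (fun m hm j _ s hs c hc => hT m hm j c (tate_of_semisimple Φ X hss hs hc)) n j
    obtain ⟨s, hs, h3⟩ := IsTate.mem Φ hc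
    exact h2 s hs h3

end Pool.Agent.X297.UB
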